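import Pool.Agent.H47.PS.FIN

/-!
# THEOREM P: the alternative for every map

`conc_or`: `ConcP (Rf v) ∨ Up v` for every rational map of degree `d`.
-/

set_option autoImplicit false

open Filter Topology Polynomial Metric Set

namespace Pool.Agent.H64.PC

open Pool.Agent.H44.Fatou Pool.Agent.H32.BT Pool.Agent.H79.Eul Pool.Agent.H79.Par
open Pool.Agent.H35.EX Pool.Agent.H44.RR Pool.Agent.H56.HR Pool.Agent.H44.RC Pool.Agent.H47.RJ
open Pool.Agent.H47.NM Pool.Agent.H47.NN Pool.Agent.H44.ND Pool.Agent.H44.CP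

variable {d : ℕ}

/-- THEOREM P for every map -/
theorem conc_or (hd : 2 ≤ d) {v : E d} (hcop : IsCoprime (pol v.1) (pol v.2))
    (hdeg : max (pol v.1).natDegree (pol v.2).natDegree = d) : ConcP (Rf v) ∨ Up v := by
  obtain ⟨L, G, φ, K, _, hG, hGL, hLG, hconj, hK, hGen, hinf⟩ := gen_ch hd hcop hdeg
  have hφ := (hconj v hcop hdeg).2.2
  rcases Pool.Agent.H47.PS.p_gen_sph hd hGen hinf with h1 | h1
  · exact Or.inl (concp_conj hK hφ h1)
  · exact Or.inr (up_chart hd hG hGL hLG (fun v h2 h3 => (hconj v h2 h3).2.2) hcop hdeg h1)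

end Pool.Agent.H64.PC
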