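import Pool.Agent.H64.PC.VB5
import Pool.Agent.H44.NP.WIT
import Pool.Agent.H44.NP.IFT
import Pool.Agent.H1.PU.Dat

/-!
# Module VB6: bounded velocities of the preimages of a repelling cycle

`cyc_mv`: a cycle with multiplier different from `1` moves holomorphically along the line `v0 + t w` (`ift`, H44/NP/IFT). `vb`: near a map with `¬ Up` the maps have `¬ Up` (`nup_near`), so no critical orbit lands on the moving repelling point (`nland`); the three marked cycles never land on it; so `BM` holds on a small closed disc: `vel_pre` (VB4).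
-/

set_option autoImplicit false

open Filter Topology Polynomial Metric Set

namespace Pool.Agent.H64.PC

open Pool.Agent.H44.Fatou Pool.Agent.H32.BT Pool.Agent.H79.Eul Pool.Agent.H79.Par
open Pool.Agent.H35.EX Pool.Agent.H44.ND Pool.Agent.H79.ES Pool.Agent.H47.NN Pool.Agent.H47.NM Pool.Agent.H44.NP

variable {d : ℕ}

theorem cyc_mv {v0 : E d} (w : E d) {p : ℕ} {x : ℕ → ℂ} {m : ℂ}
    (hc : Cyc (pol v0.1) (pol v0.2) p x m) (hm : m ≠ 1) :
    ∃ X : ℂ → ℂ, X 0 = x 0 ∧ ∀ᶠ t in 𝓝 (0 : ℂ), AnalyticAt ℂ X t ∧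
      (v0 + t • w, X t) ∈ (Gp p : Set (E d × ℂ)) ∧ wi p (v0 + t • w, X t) = X t := by
  obtain ⟨h1, h2, h3⟩ := cyc_wi hc
  have hh : AnalyticAt ℂ (fun q : E d × ℂ => wi p q - q.2) (v0, x 0) := (wi_an p h1).sub analyticAt_snd
  have h0 : (fun q : E d × ℂ => wi p q - q.2) (v0, x 0) = 0 := sub_eq_zero.2 h2
  have hd1 : fderiv ℂ (fun q : E d × ℂ => wi p q - q.2) (v0, x 0) (0, 1) ≠ 0 := by
    rw [fderiv_fun_sub (wi_an p h1).differentiableAt differentiableAt_snd]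
    rw [ContinuousLinearMap.sub_apply, (wi_dz p h1).1, fderiv_snd]
    show mu p (v0, x 0) - 1 ≠ 0
    rw [h3]
    exact sub_ne_zero.2 hm
  obtain ⟨r, ζ, hr, hζ, hz1, hz2⟩ := ift hh h0 hd1 ((gp_open p).mem_nhds h1)
  have hcont : Continuous fun t : ℂ => v0 + t • w := by fun_prop
  refine ⟨fun t => ζ (v0 + t • w), ?_, ?_⟩
  · show ζ (v0 + (0 : ℂ) • w) = x 0
    rw [zero_smul, add_zero]
    exact (hz2 v0 (mem_ball_self hr) (x 0) (mem_ball_self hr) h0).symm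
  · have h4 : ∀ᶠ t : ℂ in 𝓝 0, v0 + t • w ∈ ball v0 r := by
      have h5 : Tendsto (fun t : ℂ => v0 + t • w) (𝓝 0) (𝓝 v0) := by
        have h6 := hcont.tendsto 0
        rwa [zero_smul, add_zero] at h6
      exact h5 (ball_mem_nhds v0 hr)
    filter_upwards [h4] with t ht
    refine ⟨?_, (hz1 _ ht).1, sub_eq_zero.1 (hz1 _ ht).2⟩
    exact AnalyticAt.fun_comp (g := ζ) (f := fun t : ℂ => v0 + t • w) (hζ _ ht)
      (analyticAt_const.add (analyticAt_id.smul analyticAt_const))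

private theorem lim_pair {v0 w : E d} {X : ℂ → ℂ} (hX : ContinuousAt X 0) :
    Tendsto (fun t : ℂ => ((v0 + t • w, X t) : E d × ℂ)) (𝓝 0) (𝓝 (v0, X 0)) := by
  have h1 : Tendsto (fun t : ℂ => v0 + t • w) (𝓝 0) (𝓝 v0) := by
    have h2 : Continuous fun t : ℂ => v0 + t • w := by fun_prop
    have h3 := h2.tendsto 0
    rwa [zero_smul, add_zero] at h3
  exact h1.prodMk_nhds hX

/-- the marked cycle does not land on `X` -/
theorem mark_ne {v0 w : E d} {X Y : ℂ → ℂ} {n : ℕ} (hn : 0 < n) {y : ℕ → ℂ} {l : ℂ}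
    (hy : Cyc (pol v0.1) (pol v0.2) n y l) (hY0 : Y 0 = y 0) (hYc : ContinuousAt Y 0)
    (hXc : ContinuousAt X 0) (hyx : ∀ i < n, y i ≠ X 0)
    (hYt : ∀ᶠ t in 𝓝 (0 : ℂ), (v0 + t • w, Y t) ∈ (Gp n : Set (E d × ℂ)) ∧
      wi n (v0 + t • w, Y t) = Y t) :
    ∀ᶠ t in 𝓝 (0 : ℂ), ∀ k : ℕ, (Rf (v0 + t • w))^[k] (Y t : OnePoint ℂ) ≠ (X t : OnePoint ℂ) := by
  have h0 := (cyc_wi hy).1
  have hval : ∀ i, i < n → wi i (v0, y 0) = y i := by
    intro i
    induction i with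
    | zero => intro _; rfl
    | succ i ih =>
      intro hi
      show (pol v0.1).eval (wi i (v0, y 0)) / (pol v0.2).eval (wi i (v0, y 0)) = y (i + 1)
      rw [ih (by omega)]
      exact hy.step i (by omega)
  have hgi : ∀ i, i < n → (v0, y 0) ∈ (Gp i : Set (E d × ℂ)) := fun i hi j hj => h0 j (by omega)
  have h1 : ∀ i ∈ Finset.range n, ∀ᶠ t in 𝓝 (0 : ℂ), wi i (v0 + t • w, Y t) ≠ X t := by
    intro i hi
    have hi' := Finset.mem_range.1 hi
    have h2 : Tendsto (fun t : ℂ => wi i (v0 + t • w, Y t)) (𝓝 0) (𝓝 (y i)) := by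
      have h3 := (wi_an i (hgi i hi')).continuousAt.tendsto
      rw [hval i hi'] at h3
      have h4 := lim_pair (v0 := v0) (w := w) hYc
      rw [hY0] at h4
      exact h3.comp h4
    have h5 : Tendsto (fun t : ℂ => wi i (v0 + t • w, Y t) - X t) (𝓝 0) (𝓝 (y i - X 0)) :=
      h2.sub hXc
    filter_upwards [h5.eventually_ne (sub_ne_zero.2 (hyx i hi'))] with t ht
    exact sub_ne_zero.1 ht
  have h2 : ∀ᶠ t in 𝓝 (0 : ℂ), ∀ i ∈ Finset.range n, wi i (v0 + t • w, Y t) ≠ X t := by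
    rw [Filter.eventually_all_finset]
    exact h1
  filter_upwards [h2, hYt] with t ht1 ht2 k hk
  have hc := wi_cyc ht2.1 ht2.2
  have hper : ∀ j : ℕ, (Rf (v0 + t • w))^[n * j] (Y t : OnePoint ℂ) = (Y t : OnePoint ℂ) := by
    intro j
    induction j with
    | zero => rfl
    | succ j ih =>
      have h3 := cyc_per hc
      rw [Nat.mul_succ, Function.iterate_add_apply]
      have h4 : (Rf (v0 + t • w))^[n] (Y t : OnePoint ℂ) = (Y t : OnePoint ℂ) := h3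
      rw [h4, ih]
  have hmod : (Rf (v0 + t • w))^[k] (Y t : OnePoint ℂ) = (Rf (v0 + t • w))^[k % n] (Y t : OnePoint ℂ) := by
    have h3 : k = k % n + n * (k / n) := (Nat.mod_add_div k n).symm
    conv_lhs => rw [h3]
    rw [Function.iterate_add_apply, hper]
  have hlt := Nat.mod_lt k hn
  have h5 := Pool.Agent.H44.CP.cyc_it hc (k % n) hlt.le
  have h6 : (Rf (v0 + t • w))^[k % n] (Y t : OnePoint ℂ) =
      ((wi (k % n) (v0 + t • w, Y t) : ℂ) : OnePoint ℂ) := h5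
  rw [hmod, h6, OnePoint.coe_eq_coe] at hk
  exact ht1 (k % n) (Finset.mem_range.2 hlt) hk

theorem vb (hd : 2 ≤ d) {v0 : E d} (hcop : IsCoprime (pol v0.1) (pol v0.2))
    (hdeg : max (pol v0.1).natDegree (pol v0.2).natDegree = d) (hup : ¬ Up v0) {p : ℕ} (hp : 0 < p)
    {x : ℕ → ℂ} {m : ℂ} (hc : Cyc (pol v0.1) (pol v0.2) p x m) (hm : 1 < ‖m‖)
    {n : Fin 3 → ℕ} {y : Fin 3 → ℕ → ℂ} {l : Fin 3 → ℂ} (hn : ∀ j, 0 < n j)
    (hy : ∀ j, Cyc (pol v0.1) (pol v0.2) (n j) (y j) (l j)) (hl : ∀ j, l j ≠ 1)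
    (hyy : ∀ i j, i ≠ j → y i 0 ≠ y j 0) (hyx : ∀ j, ∀ i < n j, y j i ≠ x 0) :
    Pool.Agent.H1.PU.VB v0 (x 0) := by
  intro w
  have hm1 : m ≠ 1 := by
    intro h1
    rw [h1, norm_one] at hm
    exact lt_irrefl _ hm
  obtain ⟨X, hX0, hX⟩ := cyc_mv w hc hm1
  choose Y hY0 hY using fun j => cyc_mv w (hy j) (hl j)
  have hXc : ContinuousAt X 0 := hX.self_of_nhds.1.continuousAt
  have hYc : ∀ j, ContinuousAt (Y j) 0 := fun j => (hY j).self_of_nhds.1.continuousAt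
  -- the maps near `v0`
  have hlim : Tendsto (fun t : ℂ => v0 + t • w) (𝓝 0) (𝓝 v0) := by
    have h2 : Continuous fun t : ℂ => v0 + t • w := by fun_prop
    have h3 := h2.tendsto 0
    rwa [zero_smul, add_zero] at h3
  have hnear := hlim.eventually (nup_near hd hcop hdeg hup)
  -- the multiplier
  have hmu : ∀ᶠ t in 𝓝 (0 : ℂ), 1 < ‖mu p (v0 + t • w, X t)‖ := by
    obtain ⟨h1, h2, h3⟩ := cyc_wi hc
    have h4 := (mu_an p h1).continuousAt.tendsto
    rw [h3] at h4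
    have h5 := lim_pair (v0 := v0) (w := w) hXc
    rw [hX0] at h5
    exact (h4.comp h5).norm.eventually (lt_mem_nhds hm)
  have hnq : ∀ j, ∀ᶠ t in 𝓝 (0 : ℂ), ∀ k : ℕ,
      (Rf (v0 + t • w))^[k] (Y j t : OnePoint ℂ) ≠ (X t : OnePoint ℂ) := fun j =>
    mark_ne (hn j) (hy j) (hY0 j) (hYc j) hXc (fun i hi => by rw [hX0]; exact hyx j i hi)
      ((hY j).mono fun t ht => ht.2)
  have hne : ∀ i j, i ≠ j → ∀ᶠ t in 𝓝 (0 : ℂ), Y i t ≠ Y j t := by
    intro i j hij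
    have h1 : Tendsto (fun t => Y i t - Y j t) (𝓝 0) (𝓝 (Y i 0 - Y j 0)) := (hYc i).sub (hYc j)
    have h2 : Y i 0 - Y j 0 ≠ 0 := by
      rw [hY0, hY0]
      exact sub_ne_zero.2 (hyy i j hij)
    filter_upwards [h1.eventually_ne h2] with t ht
    exact sub_ne_zero.1 ht
  have hall : ∀ᶠ t in 𝓝 (0 : ℂ), (AnalyticAt ℂ X t ∧
      (v0 + t • w, X t) ∈ (Gp p : Set (E d × ℂ)) ∧ wi p (v0 + t • w, X t) = X t) ∧
      ((IsCoprime (pol (v0 + t • w).1) (pol (v0 + t • w).2) ∧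
        max (pol (v0 + t • w).1).natDegree (pol (v0 + t • w).2).natDegree = d) ∧ ¬ Up (v0 + t • w)) ∧
      1 < ‖mu p (v0 + t • w, X t)‖ ∧
      (∀ j, AnalyticAt ℂ (Y j) t) ∧
      (∀ j, ∀ k : ℕ, (Rf (v0 + t • w))^[k] (Y j t : OnePoint ℂ) ≠ (X t : OnePoint ℂ)) ∧
      ∀ i j, i ≠ j → Y i t ≠ Y j t := by
    refine hX.and (hnear.and (hmu.and (Filter.Eventually.and ?_ (Filter.Eventually.and ?_ ?_))))
    · rw [Filter.eventually_all]
      exact fun j => (hY j).mono fun t ht => ht.1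
    · rw [Filter.eventually_all]
      exact hnq
    · rw [Filter.eventually_all]
      intro i
      rw [Filter.eventually_all]
      intro j
      by_cases hij : i = j
      · exact Filter.Eventually.of_forall fun t h => absurd hij h
      · filter_upwards [hne i j hij] with t ht _
        exact ht
  obtain ⟨ε, hε, hball⟩ := Metric.eventually_nhds_iff_ball.1 hall
  have hin : ∀ t : ℂ, ‖t‖ ≤ ε / 2 → t ∈ ball (0 : ℂ) ε := fun t ht =>
    mem_ball_zero_iff.2 (by linarith)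
  have hBM : BM v0 w (ε / 2) Y X p := by
    refine ⟨fun j => ⟨by linarith, fun t ht => ?_, fun t ht => ?_, fun t ht => ?_, fun t ht => ?_,
      fun t ht => ?_, fun t ht c hcr k => ?_⟩, fun i j hij t ht => ?_, hp, fun t ht => ?_⟩
    · exact (hball t (hin t ht)).2.1.1.1
    · exact (hball t (hin t ht)).2.1.1.2
    · exact (hball t (hin t ht)).2.2.2.1 j
    · exact (hball t (hin t ht)).1.1
    · exact (hball t (hin t ht)).2.2.2.2.1 j
    · have h1 := hball t (hin t ht)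
      exact nland hd h1.2.1.1.1 h1.2.1.1.2 h1.2.1.2 hp (wi_cyc h1.1.2.1 h1.1.2.2) h1.2.2.1 hcr k
    · exact (hball t (hin t ht)).2.2.2.2.2 i j hij
    · have h1 := hball t (hin t ht)
      have h2 := cyc_per (wi_cyc h1.1.2.1 h1.1.2.2)
      exact h2
  obtain ⟨C, hC⟩ := vel_pre hBM
  refine ⟨C, fun k z hz hzk => hC k z hz ?_⟩
  rw [hX0]
  exact hzk

end Pool.Agent.H64.PC
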