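import Pool.Agent.H47.NN.Defs
import Pool.Agent.H79.ES.MRS

/-!
# Module VB1: homogeneous iterates, jointly analytic in the map and the point

`hs v q`: the homogeneous form of the map with coefficient vectors `v` at `q = (x, y)`; `hi v m` its iterates.
-/

set_option autoImplicit false

open Filter Topology Polynomial Metric Set

namespace Pool.Agent.H64.PC

open Pool.Agent.H44.Fatou Pool.Agent.H32.BT Pool.Agent.H79.Eul Pool.Agent.H79.Par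

variable {d : ℕ}

/-- the homogeneous form of the map -/
noncomputable def hs (v : E d) (q : ℂ × ℂ) : ℂ × ℂ :=
  (∑ i : Fin (d + 1), v.1 i * q.1 ^ (i : ℕ) * q.2 ^ (d - (i : ℕ)),
    ∑ i : Fin (d + 1), v.2 i * q.1 ^ (i : ℕ) * q.2 ^ (d - (i : ℕ)))

/-- its iterates -/
noncomputable def hi (v : E d) : ℕ → ℂ × ℂ → ℂ × ℂ
  | 0, q => q
  | m + 1, q => hs v (hi v m q)

private theorem hs_aux (f : E d → Fin (d + 1) → ℂ) (hf : ∀ (p : E d × (ℂ × ℂ)) (i : Fin (d + 1)),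
    AnalyticAt ℂ (fun p : E d × (ℂ × ℂ) => f p.1 i) p) (p : E d × (ℂ × ℂ)) :
    AnalyticAt ℂ (fun p : E d × (ℂ × ℂ) =>
      ∑ i : Fin (d + 1), f p.1 i * p.2.1 ^ (i : ℕ) * p.2.2 ^ (d - (i : ℕ))) p := by
  have h1 : AnalyticAt ℂ (fun p : E d × (ℂ × ℂ) => p.2.1) p :=
    ((ContinuousLinearMap.fst ℂ ℂ ℂ).comp (ContinuousLinearMap.snd ℂ (E d) (ℂ × ℂ))).analyticAt p
  have h2 : AnalyticAt ℂ (fun p : E d × (ℂ × ℂ) => p.2.2) p :=
    ((ContinuousLinearMap.snd ℂ ℂ ℂ).comp (ContinuousLinearMap.snd ℂ (E d) (ℂ × ℂ))).analyticAt p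
  have h3 : (fun p : E d × (ℂ × ℂ) =>
      ∑ i : Fin (d + 1), f p.1 i * p.2.1 ^ (i : ℕ) * p.2.2 ^ (d - (i : ℕ))) =
      ∑ i : Fin (d + 1), fun p : E d × (ℂ × ℂ) => f p.1 i * p.2.1 ^ (i : ℕ) * p.2.2 ^ (d - (i : ℕ)) := by
    funext p
    rw [Finset.sum_apply]
  rw [h3]
  exact Finset.analyticAt_sum _ fun i _ => ((hf p i).mul (h1.pow _)).mul (h2.pow _)

theorem hs_an (p : E d × (ℂ × ℂ)) : AnalyticAt ℂ (fun p : E d × (ℂ × ℂ) => hs p.1 p.2) p := by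
  refine AnalyticAt.prod (hs_aux (fun v => v.1) (fun p i => ?_) p) (hs_aux (fun v => v.2) (fun p i => ?_) p)
  · exact (((ContinuousLinearMap.proj (R := ℂ) (φ := fun _ : Fin (d + 1) => ℂ) i).comp
      ((ContinuousLinearMap.fst ℂ (Fin (d + 1) → ℂ) (Fin (d + 1) → ℂ)).comp
        (ContinuousLinearMap.fst ℂ (E d) (ℂ × ℂ)))).analyticAt p)
  · exact (((ContinuousLinearMap.proj (R := ℂ) (φ := fun _ : Fin (d + 1) => ℂ) i).comp
      ((ContinuousLinearMap.snd ℂ (Fin (d + 1) → ℂ) (Fin (d + 1) → ℂ)).comp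
        (ContinuousLinearMap.fst ℂ (E d) (ℂ × ℂ)))).analyticAt p)

theorem hi_an (m : ℕ) (p : E d × (ℂ × ℂ)) :
    AnalyticAt ℂ (fun p : E d × (ℂ × ℂ) => hi p.1 m p.2) p := by
  induction m with
  | zero =>
    show AnalyticAt ℂ (fun p : E d × (ℂ × ℂ) => p.2) p
    exact analyticAt_snd
  | succ m ih =>
    have h1 : AnalyticAt ℂ (fun p : E d × (ℂ × ℂ) => (p.1, hi p.1 m p.2)) p := analyticAt_fst.prod ih
    exact AnalyticAt.fun_comp (g := fun p : E d × (ℂ × ℂ) => hs p.1 p.2)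
      (f := fun p : E d × (ℂ × ℂ) => (p.1, hi p.1 m p.2)) (hs_an _) h1

theorem hs_hom (v : E d) (q : ℂ × ℂ) : hs v q =
    (Pool.Agent.H91.Fatou.hom d (pol v.1) q.1 q.2, Pool.Agent.H91.Fatou.hom d (pol v.2) q.1 q.2) := by
  unfold hs Pool.Agent.H91.Fatou.hom
  rw [Finset.sum_range, Finset.sum_range]
  simp only [pol_coeff]

theorem hs_ne {v : E d} (hcop : IsCoprime (pol v.1) (pol v.2))
    (hdeg : max (pol v.1).natDegree (pol v.2).natDegree = d) {q : ℂ × ℂ} (hq : q.1 ≠ 0 ∨ q.2 ≠ 0) :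
    ((hs v q).1 ≠ 0 ∨ (hs v q).2 ≠ 0) ∧ Rf v (pt q.1 q.2) = pt (hs v q).1 (hs v q).2 := by
  have hdg : Pool.Agent.H44.Fatou.dg (pol v.1) (pol v.2) = d := hdeg
  have h1 := Pool.Agent.H91.Fatou.hom_ne hcop hq
  have h2 := Pool.Agent.H91.Fatou.rat_pt (P := pol v.1) (Q := pol v.2) hq
  rw [hdg] at h1 h2
  rw [hs_hom]
  exact ⟨h1, h2⟩

theorem hi_ne {v : E d} (hcop : IsCoprime (pol v.1) (pol v.2))
    (hdeg : max (pol v.1).natDegree (pol v.2).natDegree = d) {q : ℂ × ℂ} (hq : q.1 ≠ 0 ∨ q.2 ≠ 0)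
    (m : ℕ) : ((hi v m q).1 ≠ 0 ∨ (hi v m q).2 ≠ 0) ∧
      (Rf v)^[m] (pt q.1 q.2) = pt (hi v m q).1 (hi v m q).2 := by
  induction m with
  | zero => exact ⟨hq, rfl⟩
  | succ m ih =>
    have h1 := hs_ne hcop hdeg ih.1
    refine ⟨h1.1, ?_⟩
    rw [Function.iterate_succ_apply', ih.2]
    exact h1.2

theorem hi_add (v : E d) (m n : ℕ) (q : ℂ × ℂ) : hi v (n + m) q = hi v n (hi v m q) := by
  induction n with
  | zero => rw [Nat.zero_add]; rfl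
  | succ n ih =>
    rw [show n + 1 + m = (n + m) + 1 by omega]
    show hs v (hi v (n + m) q) = hs v (hi v n (hi v m q))
    rw [ih]

end Pool.Agent.H64.PC
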