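import Pool.Agent.H64.PC.VB1
import Pool.Agent.H44.CP.MCV
import Pool.Agent.H91.Fatou.Branch
import Pool.Agent.H91.Fatou.Crit
import Pool.Agent.H32.BT.Crit

/-!
# Module VB2: the preimages of a moving point move holomorphically

`BD v0 w r q X`: over the closed disc of radius `r` the maps `v0 + t w` are rational of degree `d`, `q t` (a marked point) never lands on `X t`, no critical orbit lands on `X t`.
`KB`: the pairs `(t, u)` such that the point `pt (1 + q u) u` (`= q + 1 / u`) is mapped to `X t` by the `m`-th iterate. PROOF. `KB` is compact (`u` large means that the point is near `q t`), locally the graph of a holomorphic function (implicit function theorem; a multiple root gives a critical orbit landing on `X t`), so `sel` (H44/CP/MCV) gives a holomorphic selection.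
-/

set_option autoImplicit false

open Filter Topology Polynomial Metric Set

namespace Pool.Agent.H64.PC

open Pool.Agent.H44.Fatou Pool.Agent.H32.BT Pool.Agent.H79.Eul Pool.Agent.H79.Par

variable {d : ℕ}

theorem pt_coe_iff {R S x : ℂ} (h : R ≠ 0 ∨ S ≠ 0) :
    pt R S = (x : OnePoint ℂ) ↔ R - x * S = 0 := by
  unfold pt
  by_cases hS : S = 0
  · rw [if_pos hS]
    constructor
    · intro h1
      exact absurd h1 (OnePoint.infty_ne_coe _)
    · intro h1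
      rw [hS, mul_zero, sub_zero] at h1
      rcases h with h2 | h2
      · exact absurd h1 h2
      · exact absurd hS h2
  · rw [if_neg hS, OnePoint.coe_eq_coe, div_eq_iff hS, sub_eq_zero]

/-- the point `q + 1 / u` -/
noncomputable def psi (q u : ℂ) : OnePoint ℂ := pt (1 + q * u) u

theorem psi_ne (q u : ℂ) : (1 + q * u) ≠ 0 ∨ u ≠ 0 := by
  by_cases hu : u = 0
  · left
    rw [hu, mul_zero, add_zero]
    exact one_ne_zero
  · exact Or.inr hu

theorem psi_inj {q u u' : ℂ} (h : psi q u = psi q u') : u = u' := by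
  have h1 := pt_eq h
  linear_combination -h1

theorem psi_cont (q : ℂ) : Continuous (psi q) := by
  rw [continuous_iff_continuousAt]
  intro u
  exact tendsto_pt (x := fun u => 1 + q * u) (y := fun u => u)
    (Continuous.tendsto (by fun_prop) u) (Continuous.tendsto (by fun_prop) u) (psi_ne q u)

/-- the function whose zeros are the preimages -/
noncomputable def Fb (v : E d) (m : ℕ) (q x u : ℂ) : ℂ :=
  (hi v m (1 + q * u, u)).1 - x * (hi v m (1 + q * u, u)).2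

theorem fb_iff {v : E d} (hcop : IsCoprime (pol v.1) (pol v.2))
    (hdeg : max (pol v.1).natDegree (pol v.2).natDegree = d) (m : ℕ) (q x u : ℂ) :
    (Rf v)^[m] (psi q u) = (x : OnePoint ℂ) ↔ Fb v m q x u = 0 := by
  have h1 := hi_ne hcop hdeg (q := (1 + q * u, u)) (psi_ne q u) m
  unfold psi Fb
  rw [show pt (1 + q * u) u = pt ((1 + q * u, u) : ℂ × ℂ).1 ((1 + q * u, u) : ℂ × ℂ).2 from rfl, h1.2]
  exact pt_coe_iff h1.1

theorem hi_an_u (v : E d) (m : ℕ) (q u : ℂ) : AnalyticAt ℂ (fun u => hi v m (1 + q * u, u)) u := by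
  have h1 : AnalyticAt ℂ (fun u : ℂ => ((v, (1 + q * u, u)) : E d × (ℂ × ℂ))) u :=
    analyticAt_const.prod ((analyticAt_const.add (analyticAt_const.mul analyticAt_id)).prod analyticAt_id)
  exact AnalyticAt.fun_comp (g := fun p : E d × (ℂ × ℂ) => hi p.1 m p.2)
      (f := fun u : ℂ => ((v, (1 + q * u, u)) : E d × (ℂ × ℂ))) (hi_an m _) h1

theorem fst_an {Y : Type*} [NormedAddCommGroup Y] [NormedSpace ℂ Y] {f : Y → ℂ × ℂ} {y : Y}
    (h : AnalyticAt ℂ f y) : AnalyticAt ℂ (fun y => (f y).1) y :=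
  AnalyticAt.fun_comp (g := fun p : ℂ × ℂ => p.1) analyticAt_fst h

theorem snd_an {Y : Type*} [NormedAddCommGroup Y] [NormedSpace ℂ Y] {f : Y → ℂ × ℂ} {y : Y}
    (h : AnalyticAt ℂ f y) : AnalyticAt ℂ (fun y => (f y).2) y :=
  AnalyticAt.fun_comp (g := fun p : ℂ × ℂ => p.2) analyticAt_snd h

/-- a multiple root gives a critical orbit -/
theorem crit_of_deriv {v : E d} (hcop : IsCoprime (pol v.1) (pol v.2))
    (hdeg : max (pol v.1).natDegree (pol v.2).natDegree = d) {m : ℕ} {q x u : ℂ}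
    (h0 : Fb v m q x u = 0) (h1 : deriv (Fb v m q x) u = 0) :
    ∃ c, IsCrit (Rf v) c ∧ ∃ n : ℕ, (Rf v)^[n] c = (x : OnePoint ℂ) := by
  by_contra hno
  have hmx : (Rf v)^[m] (psi q u) = (x : OnePoint ℂ) := (fb_iff hcop hdeg m q x u).2 h0
  have hnc : ∀ i < m, ¬ Pool.Agent.H91.Fatou.Crit (Rf v) ((Rf v)^[i] (psi q u)) := by
    intro i hi hc
    refine hno ⟨_, hc, m - i, ?_⟩
    rw [← Function.iterate_add_apply, Nat.sub_add_cancel hi.le]
    exact hmx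
  obtain ⟨W, hW, hinj⟩ := Pool.Agent.H91.Fatou.inj_iterate (rat_continuous hcop) m hnc
  have hR : AnalyticAt ℂ (fun u => (hi v m (1 + q * u, u)).1) u := fst_an (hi_an_u v m q u)
  have hS : AnalyticAt ℂ (fun u => (hi v m (1 + q * u, u)).2) u := snd_an (hi_an_u v m q u)
  have hS0 : (hi v m (1 + q * u, u)).2 ≠ 0 := by
    intro hS0
    have h2 := (hi_ne hcop hdeg (q := (1 + q * u, u)) (psi_ne q u) m).1
    unfold Fb at h0
    rw [hS0, mul_zero, sub_zero] at h0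
    rcases h2 with h2 | h2
    · exact h2 h0
    · exact h2 hS0
  have hg : AnalyticAt ℂ (fun u => (hi v m (1 + q * u, u)).1 / (hi v m (1 + q * u, u)).2) u :=
    hR.div hS hS0
  have hg' : deriv (fun u => (hi v m (1 + q * u, u)).1 / (hi v m (1 + q * u, u)).2) u = 0 := by
    have e1 := (hR.differentiableAt.hasDerivAt.div hS.differentiableAt.hasDerivAt hS0).deriv
    have e2 : deriv (Fb v m q x) u = deriv (fun u => (hi v m (1 + q * u, u)).1) u -
        x * deriv (fun u => (hi v m (1 + q * u, u)).2) u :=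
      (hR.differentiableAt.hasDerivAt.sub (hS.differentiableAt.hasDerivAt.const_mul x)).deriv
    rw [h1] at e2
    have e1' : deriv (fun u => (hi v m (1 + q * u, u)).1 / (hi v m (1 + q * u, u)).2) u =
        (deriv (fun u => (hi v m (1 + q * u, u)).1) u * (hi v m (1 + q * u, u)).2 -
          (hi v m (1 + q * u, u)).1 * deriv (fun u => (hi v m (1 + q * u, u)).2) u) /
          (hi v m (1 + q * u, u)).2 ^ 2 := e1
    rw [e1', div_eq_zero_iff]
    left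
    unfold Fb at h0
    linear_combination -(hi v m (1 + q * u, u)).2 * e2 -
      deriv (fun u => (hi v m (1 + q * u, u)).2) u * h0
  have hV : (psi q) ⁻¹' W ∩ {u | (hi v m (1 + q * u, u)).2 ≠ 0} ∈ 𝓝 u :=
    inter_mem ((psi_cont q).continuousAt hW) (hS.continuousAt.eventually_ne hS0)
  refine Pool.Agent.H91.Fatou.not_injOn_of_deriv hg hg' hV ?_
  rintro a ⟨ha1, ha2⟩ b ⟨hb1, hb2⟩ hab
  have ha2' : (hi v m (1 + q * a, a)).2 ≠ 0 := ha2
  have hb2' : (hi v m (1 + q * b, b)).2 ≠ 0 := hb2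
  have hab' : (hi v m (1 + q * a, a)).1 / (hi v m (1 + q * a, a)).2 =
      (hi v m (1 + q * b, b)).1 / (hi v m (1 + q * b, b)).2 := hab
  have h3 : ∀ u : ℂ, (hi v m (1 + q * u, u)).2 ≠ 0 → (Rf v)^[m] (psi q u) =
      (((hi v m (1 + q * u, u)).1 / (hi v m (1 + q * u, u)).2 : ℂ) : OnePoint ℂ) := by
    intro u hu
    have h4 := (hi_ne hcop hdeg (q := (1 + q * u, u)) (psi_ne q u) m).2
    have h5 : (Rf v)^[m] (psi q u) = pt (hi v m (1 + q * u, u)).1 (hi v m (1 + q * u, u)).2 := h4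
    rw [h5]
    unfold pt
    rw [if_neg hu]
  refine psi_inj (hinj ha1 hb1 ?_)
  show (Rf v)^[m] (psi q a) = (Rf v)^[m] (psi q b)
  rw [h3 a ha2', h3 b hb2', hab']

/-- data over a closed disc -/
structure BD (v0 w : E d) (r : ℝ) (q X : ℂ → ℂ) : Prop where
  hr : 0 < r
  cop : ∀ t : ℂ, ‖t‖ ≤ r → IsCoprime (pol (v0 + t • w).1) (pol (v0 + t • w).2)
  deg : ∀ t : ℂ, ‖t‖ ≤ r → max (pol (v0 + t • w).1).natDegree (pol (v0 + t • w).2).natDegree = d
  qan : ∀ t : ℂ, ‖t‖ ≤ r → AnalyticAt ℂ q t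
  Xan : ∀ t : ℂ, ‖t‖ ≤ r → AnalyticAt ℂ X t
  nq : ∀ t : ℂ, ‖t‖ ≤ r → ∀ n : ℕ, (Rf (v0 + t • w))^[n] (q t : OnePoint ℂ) ≠ (X t : OnePoint ℂ)
  nc : ∀ t : ℂ, ‖t‖ ≤ r → ∀ c, IsCrit (Rf (v0 + t • w)) c → ∀ n : ℕ,
    (Rf (v0 + t • w))^[n] c ≠ (X t : OnePoint ℂ)

/-- the preimages -/
def KB (v0 w : E d) (r : ℝ) (q X : ℂ → ℂ) (m : ℕ) : Set (ℂ × ℂ) :=
  {p | ‖p.1‖ ≤ r ∧ Fb (v0 + p.1 • w) m (q p.1) (X p.1) p.2 = 0}

variable {v0 w : E d} {r : ℝ} {q X : ℂ → ℂ}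

theorem BD.an (h : BD v0 w r q X) (m : ℕ) {p : ℂ × ℂ} (hp : ‖p.1‖ ≤ r) :
    AnalyticAt ℂ (fun p : ℂ × ℂ => Fb (v0 + p.1 • w) m (q p.1) (X p.1) p.2) p := by
  have h1 : AnalyticAt ℂ (fun p : ℂ × ℂ => q p.1) p := (h.qan p.1 hp).fun_comp analyticAt_fst
  have h2 : AnalyticAt ℂ (fun p : ℂ × ℂ => X p.1) p := (h.Xan p.1 hp).fun_comp analyticAt_fst
  have h3 : AnalyticAt ℂ (fun p : ℂ × ℂ => v0 + p.1 • w) p :=
    analyticAt_const.add (analyticAt_fst.smul analyticAt_const)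
  have h4 : AnalyticAt ℂ (fun p : ℂ × ℂ =>
      ((v0 + p.1 • w, (1 + q p.1 * p.2, p.2)) : E d × (ℂ × ℂ))) p :=
    h3.prod ((analyticAt_const.add (h1.mul analyticAt_snd)).prod analyticAt_snd)
  have h5 : AnalyticAt ℂ (fun p : ℂ × ℂ => hi (v0 + p.1 • w) m (1 + q p.1 * p.2, p.2)) p :=
    AnalyticAt.fun_comp (g := fun p : E d × (ℂ × ℂ) => hi p.1 m p.2)
      (f := fun p : ℂ × ℂ => ((v0 + p.1 • w, (1 + q p.1 * p.2, p.2)) : E d × (ℂ × ℂ))) (hi_an m _) h4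
  exact (fst_an h5).sub (h2.mul (snd_an h5))

/-- the same in the coordinate `s = 1 / u` -/
theorem BD.an2 (h : BD v0 w r q X) (m : ℕ) {p : ℂ × ℂ} (hp : ‖p.1‖ ≤ r) :
    AnalyticAt ℂ (fun p : ℂ × ℂ => (hi (v0 + p.1 • w) m (p.2 + q p.1, 1)).1 -
      X p.1 * (hi (v0 + p.1 • w) m (p.2 + q p.1, 1)).2) p := by
  have h1 : AnalyticAt ℂ (fun p : ℂ × ℂ => q p.1) p := (h.qan p.1 hp).fun_comp analyticAt_fst
  have h2 : AnalyticAt ℂ (fun p : ℂ × ℂ => X p.1) p := (h.Xan p.1 hp).fun_comp analyticAt_fst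
  have h3 : AnalyticAt ℂ (fun p : ℂ × ℂ => v0 + p.1 • w) p :=
    analyticAt_const.add (analyticAt_fst.smul analyticAt_const)
  have h4 : AnalyticAt ℂ (fun p : ℂ × ℂ => ((v0 + p.1 • w, (p.2 + q p.1, 1)) : E d × (ℂ × ℂ))) p :=
    h3.prod ((analyticAt_snd.add h1).prod analyticAt_const)
  have h5 : AnalyticAt ℂ (fun p : ℂ × ℂ => hi (v0 + p.1 • w) m (p.2 + q p.1, 1)) p :=
    AnalyticAt.fun_comp (g := fun p : E d × (ℂ × ℂ) => hi p.1 m p.2)
      (f := fun p : ℂ × ℂ => ((v0 + p.1 • w, (p.2 + q p.1, 1)) : E d × (ℂ × ℂ))) (hi_an m _) h4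
  exact (fst_an h5).sub (h2.mul (snd_an h5))

theorem psi_s {q u : ℂ} (hu : u ≠ 0) : psi q u = pt (u⁻¹ + q) 1 := by
  unfold psi
  have h1 := pt_smul (x := u⁻¹ + q) (y := 1) hu
  rw [← h1]
  congr 1
  · field_simp
  · ring

theorem kb_bdd (h : BD v0 w r q X) (m : ℕ) : ∃ M : ℝ, ∀ p ∈ KB v0 w r q X m, ‖p.2‖ ≤ M := by
  obtain ⟨Z, hZ⟩ : ∃ Z : Set (ℂ × ℂ), Z = (closedBall (0 : ℂ) r ×ˢ closedBall (0 : ℂ) 1) ∩
      {p | (hi (v0 + p.1 • w) m (p.2 + q p.1, 1)).1 -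
        X p.1 * (hi (v0 + p.1 • w) m (p.2 + q p.1, 1)).2 = 0} := ⟨_, rfl⟩
  have hcont : ContinuousOn (fun p : ℂ × ℂ => (hi (v0 + p.1 • w) m (p.2 + q p.1, 1)).1 -
      X p.1 * (hi (v0 + p.1 • w) m (p.2 + q p.1, 1)).2)
      (closedBall (0 : ℂ) r ×ˢ closedBall (0 : ℂ) 1) := by
    intro p hp
    exact (h.an2 m (mem_closedBall_zero_iff.1 hp.1)).continuousAt.continuousWithinAt
  have hZc : IsCompact Z := by
    have hK : IsCompact (closedBall (0 : ℂ) r ×ˢ closedBall (0 : ℂ) 1) :=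
      (isCompact_closedBall _ _).prod (isCompact_closedBall _ _)
    have h1 := hcont.preimage_isClosed_of_isClosed hK.isClosed (isClosed_singleton (x := (0 : ℂ)))
    rw [hZ]
    exact hK.of_isClosed_subset h1 inter_subset_left
  have hZ0 : ∀ p ∈ Z, p.2 ≠ 0 := by
    intro p hp h0
    rw [hZ] at hp
    obtain ⟨⟨h1, -⟩, h2⟩ := hp
    have ht := mem_closedBall_zero_iff.1 h1
    have h2' : (hi (v0 + p.1 • w) m (p.2 + q p.1, 1)).1 -
        X p.1 * (hi (v0 + p.1 • w) m (p.2 + q p.1, 1)).2 = 0 := h2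
    have h3 := hi_ne (h.cop _ ht) (h.deg _ ht) (q := (p.2 + q p.1, 1)) (Or.inr one_ne_zero) m
    have h4 := (pt_coe_iff h3.1).2 h2'
    rw [← h3.2] at h4
    refine h.nq _ ht m ?_
    rw [h0, zero_add] at h4
    have h5 : pt (q p.1) 1 = (q p.1 : OnePoint ℂ) := by
      unfold pt
      rw [if_neg one_ne_zero, div_one]
    rw [← h5]
    exact h4
  have hmin : ∃ δ : ℝ, 0 < δ ∧ ∀ p ∈ Z, δ ≤ ‖p.2‖ := by
    rcases Z.eq_empty_or_nonempty with hE | hE
    · exact ⟨1, one_pos, fun p hp => absurd hp (by rw [hE]; exact Set.notMem_empty p)⟩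
    · obtain ⟨p0, hp0, hmin⟩ := hZc.exists_isMinOn hE (continuous_snd.norm.continuousOn)
      exact ⟨‖p0.2‖, norm_pos_iff.2 (hZ0 p0 hp0), fun p hp => hmin hp⟩
  obtain ⟨δ, hδ, hmin⟩ := hmin
  refine ⟨max 1 δ⁻¹, fun p hp => ?_⟩
  obtain ⟨ht, hF⟩ := hp
  by_cases hu : ‖p.2‖ ≤ 1
  · exact hu.trans (le_max_left _ _)
  · have hu1 : 1 < ‖p.2‖ := not_le.1 hu
    have hu0 : p.2 ≠ 0 := by
      intro h0
      rw [h0, norm_zero] at hu1
      linarith
    have h1 := (fb_iff (h.cop _ ht) (h.deg _ ht) m (q p.1) (X p.1) p.2).2 hF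
    rw [psi_s hu0] at h1
    have h3 := hi_ne (h.cop _ ht) (h.deg _ ht) (q := (p.2⁻¹ + q p.1, 1)) (Or.inr one_ne_zero) m
    have h1' : (Rf (v0 + p.1 • w))^[m] (pt ((p.2⁻¹ + q p.1, (1 : ℂ)) : ℂ × ℂ).1
        ((p.2⁻¹ + q p.1, (1 : ℂ)) : ℂ × ℂ).2) = (X p.1 : OnePoint ℂ) := h1
    rw [h3.2] at h1'
    have h4 := (pt_coe_iff h3.1).1 h1'
    have hmem : ((p.1, p.2⁻¹) : ℂ × ℂ) ∈ Z := by
      rw [hZ]
      refine ⟨⟨mem_closedBall_zero_iff.2 ht, mem_closedBall_zero_iff.2 ?_⟩, h4⟩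
      show ‖p.2⁻¹‖ ≤ 1
      rw [norm_inv]
      exact inv_le_one_of_one_le₀ hu1.le
    have h5 := hmin _ hmem
    have h5' : δ ≤ ‖p.2‖⁻¹ := by
      have h6 : δ ≤ ‖p.2⁻¹‖ := h5
      rwa [norm_inv] at h6
    refine le_trans ?_ (le_max_right _ _)
    rw [le_inv_comm₀ (by linarith) hδ]
    exact h5'

theorem kb_cpt (h : BD v0 w r q X) (m : ℕ) : IsCompact (KB v0 w r q X m) := by
  obtain ⟨M, hM⟩ := kb_bdd h m
  have hK : IsCompact (closedBall (0 : ℂ) r ×ˢ closedBall (0 : ℂ) M) :=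
    (isCompact_closedBall _ _).prod (isCompact_closedBall _ _)
  have hcont : ContinuousOn (fun p : ℂ × ℂ => Fb (v0 + p.1 • w) m (q p.1) (X p.1) p.2)
      (closedBall (0 : ℂ) r ×ˢ closedBall (0 : ℂ) M) := fun p hp =>
    (h.an m (mem_closedBall_zero_iff.1 hp.1)).continuousAt.continuousWithinAt
  have h1 := hcont.preimage_isClosed_of_isClosed hK.isClosed (isClosed_singleton (x := (0 : ℂ)))
  have h2 : KB v0 w r q X m = (closedBall (0 : ℂ) r ×ˢ closedBall (0 : ℂ) M) ∩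
      (fun p : ℂ × ℂ => Fb (v0 + p.1 • w) m (q p.1) (X p.1) p.2) ⁻¹' {0} := by
    ext p
    constructor
    · intro hp
      exact ⟨⟨mem_closedBall_zero_iff.2 hp.1, mem_closedBall_zero_iff.2 (hM p hp)⟩, hp.2⟩
    · rintro ⟨h3, h4⟩
      exact ⟨mem_closedBall_zero_iff.1 h3.1, h4⟩
  rw [h2]
  exact hK.of_isClosed_subset h1 inter_subset_left

end Pool.Agent.H64.PC
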