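import Pool.Agent.H64.PC.VB3
import Pool.Agent.H84.TE.LAN3
import Pool.Agent.H61.TT.Surj

/-!
# Module VB4: bounded velocities of the preimages of a moving periodic point

`BM`: three marked points, `X t` is periodic. PROOF. `pre_sel` gives `z(t) = psi (q t) (F t)` with `f_t^m (z(t)) = X t` on the whole disc. All iterates `f_t^i (z(t))` omit the three marked points (which never land on `X t`, and `f_t^i (z(t))` does), so Landau's theorem (`lan3`, H84/TE/LAN3) bounds the derivative at `0`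
in homogeneous coordinates. The derivatives of `f_t^i (z(t))` satisfy the recursion by the chain rule.
-/

set_option autoImplicit false

open Filter Topology Polynomial Metric Set

namespace Pool.Agent.H64.PC

open Pool.Agent.H44.Fatou Pool.Agent.H32.BT Pool.Agent.H79.Eul Pool.Agent.H79.Par Pool.Agent.H61.TT

variable {d : ℕ}

/-- three marked points and a moving periodic point -/
structure BM (v0 w : E d) (r : ℝ) (Q : Fin 3 → ℂ → ℂ) (X : ℂ → ℂ) (p : ℕ) : Prop where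
  bd : ∀ j, BD v0 w r (Q j) X
  ne : ∀ i j, i ≠ j → ∀ t : ℂ, ‖t‖ ≤ r → Q i t ≠ Q j t
  hp : 0 < p
  per : ∀ t : ℂ, ‖t‖ ≤ r → (Rf (v0 + t • w))^[p] (X t : OnePoint ℂ) = (X t : OnePoint ℂ)

theorem hs_fin (v : E d) {x y : ℂ} (hy : y ≠ 0) :
    hs v (x, y) = (y ^ d * ev v.1 (x / y), y ^ d * ev v.2 (x / y)) := by
  rw [hs_hom]
  rw [Pool.Agent.H91.Fatou.hom_of_ne (pol_deg v.1) hy, Pool.Agent.H91.Fatou.hom_of_ne (pol_deg v.2) hy,
    pol_eval, pol_eval]

theorem ev_add_smul (a b : Fin (d + 1) → ℂ) (t z : ℂ) : ev (a + t • b) z = ev a z + t * ev b z := by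
  unfold ev
  rw [Finset.mul_sum, ← Finset.sum_add_distrib]
  refine Finset.sum_congr rfl fun i _ => ?_
  rw [Pi.add_apply, Pi.smul_apply, smul_eq_mul]
  ring

theorem ev_der (a : Fin (d + 1) → ℂ) (z : ℂ) : HasDerivAt (fun z => ev a z) (dev a z) z := by
  unfold ev dev
  apply HasDerivAt.fun_sum
  intro i _
  exact (hasDerivAt_pow (i : ℕ) z).const_mul (a i)

/-- the derivative of `t ↦ f_t (z t)` -/
theorem step_der {v0 w : E d} {z : ℂ → ℂ} {u : ℂ} (hz : HasDerivAt z u 0) (hb : ev v0.2 (z 0) ≠ 0) :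
    HasDerivAt (fun t : ℂ => ev (v0 + t • w).1 (z t) / ev (v0 + t • w).2 (z t))
      (wv v0 (z 0) / ev v0.2 (z 0) ^ 2 * u + xi v0 w (z 0)) 0 := by
  have h1 : ∀ (a b : Fin (d + 1) → ℂ), HasDerivAt (fun t : ℂ => ev (a + t • b) (z t))
      (dev a (z 0) * u + ev b (z 0)) 0 := by
    intro a b
    have e1 : (fun t : ℂ => ev (a + t • b) (z t)) = fun t => ev a (z t) + t * ev b (z t) := by
      funext t
      exact ev_add_smul a b t (z t)
    rw [e1]
    have h2 : HasDerivAt (fun t : ℂ => ev a (z t)) (dev a (z 0) * u) 0 := (ev_der a (z 0)).comp 0 hz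
    have h3 : HasDerivAt (fun t : ℂ => t * ev b (z t)) (1 * ev b (z 0) + 0 * (dev b (z 0) * u)) 0 :=
      (hasDerivAt_id (0 : ℂ)).mul ((ev_der b (z 0)).comp 0 hz)
    have h4 := h2.add h3
    rw [one_mul, zero_mul, add_zero] at h4
    exact h4
  have h2 := (h1 v0.1 w.1).div (h1 v0.2 w.2) (by
    show ev (v0.2 + (0 : ℂ) • w.2) (z 0) ≠ 0
    rw [zero_smul, add_zero]
    exact hb)
  have h3 : HasDerivAt (fun t : ℂ => ev (v0 + t • w).1 (z t) / ev (v0 + t • w).2 (z t)) _ 0 := h2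
  convert h3 using 1
  rw [zero_smul, zero_smul, add_zero, add_zero]
  unfold wv xi
  field_simp
  ring

variable {v0 w : E d} {r : ℝ} {Q : Fin 3 → ℂ → ℂ} {X : ℂ → ℂ} {p : ℕ}

theorem land_all (h : BM v0 w r Q X p) {t : ℂ} (ht : ‖t‖ ≤ r) {z : OnePoint ℂ} {m : ℕ}
    (hm : (Rf (v0 + t • w))^[m] z = (X t : OnePoint ℂ)) (i : ℕ) :
    ∃ N : ℕ, (Rf (v0 + t • w))^[N] ((Rf (v0 + t • w))^[i] z) = (X t : OnePoint ℂ) := by
  have hper : ∀ k : ℕ, (Rf (v0 + t • w))^[p * k] (X t : OnePoint ℂ) = (X t : OnePoint ℂ) := by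
    intro k
    induction k with
    | zero => rfl
    | succ k ih =>
      rw [Nat.mul_succ, Function.iterate_add_apply, h.per t ht, ih]
  refine ⟨p * i + m - i, ?_⟩
  have hp := h.hp
  have h1 : i ≤ p * i := Nat.le_mul_of_pos_left i hp
  rw [← Function.iterate_add_apply, Nat.sub_add_cancel (by omega), Function.iterate_add_apply, hm]
  exact hper i

theorem vel_pre (h : BM v0 w r Q X p) : ∃ C : ℝ, ∀ (k : ℕ) (z : ℕ → ℂ),
    (∀ i, (pol v0.2).eval (z i) ≠ 0 ∧ z (i + 1) = gg (pol v0.1) (pol v0.2) (z i)) → z k = X 0 →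
    ∃ u : ℕ → ℂ, (∀ i, u (i + 1) = Pool.Agent.H61.TT.dg (pol v0.1) (pol v0.2) (z i) * u i +
      xi v0 w (z i)) ∧ ∀ i, ‖u i‖ ≤ C * (1 + ‖z i‖ ^ 2) := by
  have hr := (h.bd 0).hr
  have h00 : ‖(0 : ℂ)‖ ≤ r := by rw [norm_zero]; exact hr.le
  have e0 : v0 + (0 : ℂ) • w = v0 := by rw [zero_smul, add_zero]
  have hcop := (h.bd 0).cop 0 h00
  have hdeg := (h.bd 0).deg 0 h00
  rw [e0] at hcop hdeg
  have hle : ∀ t ∈ ball (0 : ℂ) r, ‖t‖ ≤ r := fun t ht => (mem_ball_zero_iff.1 ht).le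
  obtain ⟨C, hC⟩ := Pool.Agent.H84.TE.lan3 (x := 0) hr (α := Q) (β := fun _ _ => 1)
    (fun i t ht => ((h.bd i).qan t (hle t ht)).differentiableAt.differentiableWithinAt)
    (fun i => differentiableOn_const _)
    (fun i j hij t ht => by
      rw [mul_one, mul_one]
      exact sub_ne_zero.2 (h.ne i j hij t (hle t ht)))
  refine ⟨|C|, fun k z hz hzk => ?_⟩
  -- the orbit on the sphere
  have horb : ∀ i, (Rf v0)^[i] (z 0 : OnePoint ℂ) = (z i : OnePoint ℂ) := by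
    intro i
    induction i with
    | zero => rfl
    | succ i ih =>
      rw [Function.iterate_succ_apply', ih, (hz i).2]
      exact rat_coe_of_ne (hz i).1
  obtain ⟨F, hF, -, hF0, hpsi, hland⟩ := pre_sel (h.bd 0) (m := k) (z0 := z 0) (by
    rw [horb k, hzk])
  -- homogeneous coordinates of the iterates
  obtain ⟨G, hG⟩ : ∃ G : ℕ → ℂ → ℂ × ℂ, G = fun i t => hi (v0 + t • w) i (1 + Q 0 t * F t, F t) :=
    ⟨_, rfl⟩
  have hGs : ∀ i t, G (i + 1) t = hs (v0 + t • w) (G i t) := by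
    intro i t
    rw [hG]
    rfl
  have hGd : ∀ i, DifferentiableOn ℂ (G i) (ball 0 r) := by
    intro i t ht
    have hq : DifferentiableAt ℂ (Q 0) t := ((h.bd 0).qan t (hle t ht)).differentiableAt
    have hFt : DifferentiableAt ℂ F t := hF.differentiableAt (isOpen_ball.mem_nhds ht)
    have h1 : DifferentiableAt ℂ (fun t : ℂ =>
        ((v0 + t • w, (1 + Q 0 t * F t, F t)) : E d × (ℂ × ℂ))) t :=
      ((differentiableAt_const _).add (differentiableAt_id.smul_const w)).prodMk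
        (((differentiableAt_const _).add (hq.mul hFt)).prodMk hFt)
    have h2 : DifferentiableAt ℂ (fun p : E d × (ℂ × ℂ) => hi p.1 i p.2)
        ((v0 + t • w, (1 + Q 0 t * F t, F t)) : E d × (ℂ × ℂ)) := (hi_an i _).differentiableAt
    rw [hG]
    exact (h2.comp t h1).differentiableWithinAt
  have hGne : ∀ i, ∀ t ∈ ball (0 : ℂ) r, ((G i t).1 ≠ 0 ∨ (G i t).2 ≠ 0) ∧
      (Rf (v0 + t • w))^[i] (psi (Q 0 t) (F t)) = pt (G i t).1 (G i t).2 := by
    intro i t ht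
    rw [hG]
    exact hi_ne ((h.bd 0).cop t (hle t ht)) ((h.bd 0).deg t (hle t ht))
      (q := (1 + Q 0 t * F t, F t)) (psi_ne (Q 0 t) (F t)) i
  have homit : ∀ i, ∀ j, ∀ t ∈ ball (0 : ℂ) r, 1 * (G i t).1 - Q j t * (G i t).2 ≠ 0 := by
    intro i j t ht h1
    rw [one_mul] at h1
    obtain ⟨h2, h3⟩ := hGne i t ht
    have h4 := (pt_coe_iff h2).2 h1
    rw [← h3] at h4
    obtain ⟨N, hN⟩ := land_all h (hle t ht) (hland t ht) i
    rw [h4] at hN
    exact (h.bd j).nq t (hle t ht) N hN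
  have hlan := fun i => hC (fun t => (G i t).1) (fun t => (G i t).2) (hGd i).fst (hGd i).snd
    (fun j t ht => homit i j t ht)
  -- values at zero
  have h0mem : (0 : ℂ) ∈ ball (0 : ℂ) r := mem_ball_self hr
  have hG0 : ∀ i, (G i 0).2 ≠ 0 ∧ (G i 0).1 / (G i 0).2 = z i := by
    intro i
    obtain ⟨h1, h2⟩ := hGne i 0 h0mem
    rw [e0, hpsi, horb i] at h2
    have h3 := (pt_coe_iff h1).1 h2.symm
    have h4 : (G i 0).2 ≠ 0 := by
      intro h4
      rw [h4, mul_zero, sub_zero] at h3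
      rcases h1 with h1 | h1
      · exact h1 h3
      · exact h1 h4
    refine ⟨h4, ?_⟩
    rw [div_eq_iff h4]
    exact sub_eq_zero.1 h3
  obtain ⟨Z, hZ⟩ : ∃ Z : ℕ → ℂ → ℂ, Z = fun i t => (G i t).1 / (G i t).2 := ⟨_, rfl⟩
  have hZ0 : ∀ i, Z i 0 = z i := fun i => by rw [hZ]; exact (hG0 i).2
  have hG1 : ∀ i, HasDerivAt (fun t => (G i t).1) (deriv (fun t => (G i t).1) 0) 0 := fun i =>
    ((hGd i).fst.differentiableAt (isOpen_ball.mem_nhds h0mem)).hasDerivAt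
  have hG2 : ∀ i, HasDerivAt (fun t => (G i t).2) (deriv (fun t => (G i t).2) 0) 0 := fun i =>
    ((hGd i).snd.differentiableAt (isOpen_ball.mem_nhds h0mem)).hasDerivAt
  have hZd : ∀ i, HasDerivAt (Z i) ((deriv (fun t => (G i t).1) 0 * (G i 0).2 -
      (G i 0).1 * deriv (fun t => (G i t).2) 0) / (G i 0).2 ^ 2) 0 := by
    intro i
    rw [hZ]
    exact (hG1 i).div (hG2 i) (hG0 i).1
  refine ⟨fun i => (deriv (fun t => (G i t).1) 0 * (G i 0).2 -
      (G i 0).1 * deriv (fun t => (G i t).2) 0) / (G i 0).2 ^ 2, fun i => ?_, fun i => ?_⟩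
  · -- the recursion
    have hb : ev v0.2 (Z i 0) ≠ 0 := by
      rw [hZ0, ← pol_eval]
      exact (hz i).1
    have h1 := step_der (w := w) (hZd i) hb
    have hev : Z (i + 1) =ᶠ[𝓝 0] fun t : ℂ => ev (v0 + t • w).1 (Z i t) / ev (v0 + t • w).2 (Z i t) := by
      have hc2 : ContinuousAt (fun t => (G i t).2) 0 := (hG2 i).continuousAt
      filter_upwards [hc2.eventually_ne (hG0 i).1] with t ht
      have h2 : G (i + 1) t = ((G i t).2 ^ d * ev (v0 + t • w).1 (Z i t),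
          (G i t).2 ^ d * ev (v0 + t • w).2 (Z i t)) := by
        rw [hGs i t, hZ]
        exact hs_fin (v0 + t • w) ht
      have h3 : Z (i + 1) t = (G (i + 1) t).1 / (G (i + 1) t).2 := by rw [hZ]
      rw [h3, h2]
      exact mul_div_mul_left _ _ (pow_ne_zero _ ht)
    have h2 := (hev.hasDerivAt_iff).2 h1
    have h3 := (hZd (i + 1)).unique h2
    rw [hZ0, wv_pol, ev_pol] at h3
    exact h3
  · -- the bound
    have h1 := hlan i
    have h2 : 0 < ‖(G i 0).2‖ := norm_pos_iff.2 (hG0 i).1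
    rw [norm_div, norm_pow, div_le_iff₀ (by positivity)]
    refine h1.trans ?_
    have h3 : ‖(G i 0).1‖ = ‖z i‖ * ‖(G i 0).2‖ := by
      rw [← (hG0 i).2, norm_div, div_mul_cancel₀ _ h2.ne']
    show C * (‖(G i 0).1‖ ^ 2 + ‖(G i 0).2‖ ^ 2) ≤ |C| * (1 + ‖z i‖ ^ 2) * ‖(G i 0).2‖ ^ 2
    rw [h3]
    have h4 : |C| * (1 + ‖z i‖ ^ 2) * ‖(G i 0).2‖ ^ 2 =
        |C| * ((‖z i‖ * ‖(G i 0).2‖) ^ 2 + ‖(G i 0).2‖ ^ 2) := by ring
    rw [h4]
    exact mul_le_mul_of_nonneg_right (le_abs_self C) (by positivity)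

end Pool.Agent.H64.PC
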