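import Pool.Agent.H64.PC.VB4
import Pool.Agent.H44.CP.MNT
import Pool.Agent.H44.ND.UPN
import Pool.Agent.H47.NM.CEX
import Pool.Agent.H79.Par.PerDec

/-!
# Module VB5: no critical orbit lands on a repelling cycle

`nup_near`: all maps near a map with `¬ Up` have `¬ Up` (the number of attracted critical points is constant). `nland`: if a critical orbit lands on a repelling cycle then some critical value is summable (`tg_of_exp`, H47/NM/CEX: the cycle is an expanding set), so `Up` (`up_summ`, H44/ND/UPN).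
-/

set_option autoImplicit false

open Filter Topology Polynomial Metric Set

namespace Pool.Agent.H64.PC

open Pool.Agent.H44.Fatou Pool.Agent.H32.BT Pool.Agent.H79.Eul Pool.Agent.H79.Par
open Pool.Agent.H35.EX Pool.Agent.H44.ND Pool.Agent.H79.ES Pool.Agent.H47.NN Pool.Agent.H47.NM

variable {d : ℕ} {v : E d}

theorem nup_near (hd : 2 ≤ d) {v0 : E d} (hcop : IsCoprime (pol v0.1) (pol v0.2))
    (hdeg : max (pol v0.1).natDegree (pol v0.2).natDegree = d) (hup : ¬ Up v0) :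
    ∀ᶠ v in 𝓝 v0, (IsCoprime (pol v.1) (pol v.2) ∧
      max (pol v.1).natDegree (pol v.2).natDegree = d) ∧ ¬ Up v := by
  unfold Up at hup
  push Not at hup
  obtain ⟨ε, hε, h1⟩ := hup
  have h2 : ∀ᶠ v in 𝓝 v0, v ∈ ball v0 ε ∧ NA v0 ≤ NA v ∧ (IsCoprime (pol v.1) (pol v.2) ∧
      max (pol v.1).natDegree (pol v.2).natDegree = d) :=
    Filter.Eventually.and (ball_mem_nhds v0 hε) ((na_low hd hcop hdeg).and (cop_near hcop hdeg (by omega)))
  filter_upwards [h2.eventually_nhds, h2] with v hv hv'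
  refine ⟨hv'.2.2, fun hU => ?_⟩
  obtain ⟨δ, hδ, h3⟩ := Metric.eventually_nhds_iff_ball.1 hv
  obtain ⟨w, hw, hc, hdg, hNA⟩ := hU δ hδ
  have h4 := h3 w hw
  have h5 := h1 w h4.1 hc hdg
  have h6 := hv'.2.1
  omega

private theorem ch_le (z w : ℂ) : chord (z : OnePoint ℂ) (w : OnePoint ℂ) =
    ‖z - w‖ / (√(1 + ‖z‖ ^ 2) * √(1 + ‖w‖ ^ 2)) := rfl

/-- expansion of the chordal distance at a repelling fixed point -/
private theorem exp_pt {F : ℂ → ℂ} {a D : ℂ} (hF : HasDerivAt F D a) (ha : F a = a) {q : ℝ}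
    (hq0 : 0 ≤ q) (hq : q < ‖D‖) :
    ∀ᶠ z : ℂ in 𝓝 a, q * chord (a : OnePoint ℂ) (z : OnePoint ℂ) ≤
      chord (a : OnePoint ℂ) ((F z : ℂ) : OnePoint ℂ) := by
  obtain ⟨q1, hq1⟩ : ∃ q1, q1 = (q + ‖D‖) / 2 := ⟨_, rfl⟩
  have hq1a : q < q1 := by rw [hq1]; linarith
  have hq1b : q1 < ‖D‖ := by rw [hq1]; linarith
  have h1 : ∀ᶠ z in 𝓝 a, q1 * ‖z - a‖ ≤ ‖F z - a‖ := by
    have h2 := hF.isLittleO
    have h3 := h2.def (show (0 : ℝ) < ‖D‖ - q1 by linarith)
    filter_upwards [h3] with z hz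
    rw [ha, smul_eq_mul] at hz
    have h4 : ‖D‖ * ‖z - a‖ ≤ ‖F z - a‖ + ‖F z - a - (z - a) * D‖ := by
      have h5 : ‖(z - a) * D‖ ≤ ‖F z - a‖ + ‖F z - a - (z - a) * D‖ := by
        have h6 := norm_sub_le (F z - a) (F z - a - (z - a) * D)
        rwa [sub_sub_cancel] at h6
      rwa [norm_mul, mul_comm] at h5
    linarith
  have hcF : ContinuousAt F a := hF.continuousAt
  have h2 : ∀ᶠ z in 𝓝 a, q * √(1 + ‖F z‖ ^ 2) ≤ q1 * √(1 + ‖z‖ ^ 2) := by
    have h3 : ContinuousAt (fun z => q1 * √(1 + ‖z‖ ^ 2) - q * √(1 + ‖F z‖ ^ 2)) a := by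
      have e1 : ContinuousAt (fun z : ℂ => √(1 + ‖z‖ ^ 2)) a := by fun_prop
      have e2 : ContinuousAt (fun z : ℂ => √(1 + ‖F z‖ ^ 2)) a :=
        (continuousAt_const.add (hcF.norm.pow 2)).sqrt
      exact (continuousAt_const.mul e1).sub (continuousAt_const.mul e2)
    have h4 : 0 < q1 * √(1 + ‖a‖ ^ 2) - q * √(1 + ‖F a‖ ^ 2) := by
      rw [ha, ← sub_mul]
      have h5 : 0 < √(1 + ‖a‖ ^ 2) := Real.sqrt_pos.2 (by positivity)
      exact mul_pos (by linarith) h5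
    filter_upwards [h3.eventually (lt_mem_nhds h4)] with z hz
    linarith
  filter_upwards [h1, h2] with z hz1 hz2
  rw [ch_le, ch_le]
  have e1 : 0 < √(1 + ‖a‖ ^ 2) := Real.sqrt_pos.2 (by positivity)
  have e2 : 0 < √(1 + ‖z‖ ^ 2) := Real.sqrt_pos.2 (by positivity)
  have e3 : 0 < √(1 + ‖F z‖ ^ 2) := Real.sqrt_pos.2 (by positivity)
  rw [mul_div_assoc', div_le_div_iff₀ (by positivity) (by positivity), norm_sub_rev a z,
    norm_sub_rev a (F z)]
  have h3 : q * ‖z - a‖ * √(1 + ‖F z‖ ^ 2) ≤ ‖F z - a‖ * √(1 + ‖z‖ ^ 2) := by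
    calc q * ‖z - a‖ * √(1 + ‖F z‖ ^ 2) = ‖z - a‖ * (q * √(1 + ‖F z‖ ^ 2)) := by ring
      _ ≤ ‖z - a‖ * (q1 * √(1 + ‖z‖ ^ 2)) := mul_le_mul_of_nonneg_left hz2 (norm_nonneg _)
      _ = q1 * ‖z - a‖ * √(1 + ‖z‖ ^ 2) := by ring
      _ ≤ ‖F z - a‖ * √(1 + ‖z‖ ^ 2) := mul_le_mul_of_nonneg_right hz1 e2.le
  calc q * ‖z - a‖ * (√(1 + ‖a‖ ^ 2) * √(1 + ‖F z‖ ^ 2)) =
      √(1 + ‖a‖ ^ 2) * (q * ‖z - a‖ * √(1 + ‖F z‖ ^ 2)) := by ring
    _ ≤ √(1 + ‖a‖ ^ 2) * (‖F z - a‖ * √(1 + ‖z‖ ^ 2)) := mul_le_mul_of_nonneg_left h3 e1.le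
    _ = _ := by ring

theorem cyc_per {p : ℕ} {x : ℕ → ℂ} {m : ℂ} (hc : Cyc (pol v.1) (pol v.2) p x m) :
    (Rf v)^[p] (x 0 : OnePoint ℂ) = (x 0 : OnePoint ℂ) := by
  rw [Pool.Agent.H44.CP.cyc_it hc p le_rfl, hc.per]

/-- the cycle is an expanding set -/
theorem exp_cyc {p : ℕ} (hp : 0 < p) {x : ℕ → ℂ} {m : ℂ} (hc : Cyc (pol v.1) (pol v.2) p x m)
    (hm : 1 < ‖m‖) : Expd (Rf v) {y | ∃ i < p, (x i : OnePoint ℂ) = y} := by
  have ho := Pool.Agent.H44.CP.cyc_orb hc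
  have hit := orb_it ho
  have hden : ∀ i < p, ev v.2 (it v i (x 0)) ≠ 0 := by
    intro i hi
    rw [hit i hi.le, ← pol_eval]
    exact hc.ne i hi
  -- the periodic continuation of the finite orbit
  have hper : it v p (x 0) = x 0 := by rw [hit p le_rfl, hc.per]
  have hall : ∀ k : ℕ, ev v.2 (it v k (x 0)) ≠ 0 := by
    intro k
    induction k using Nat.strong_induction_on with
    | _ k ih =>
      by_cases hk : k < p
      · exact hden k hk
      · have h1 : it v k (x 0) = it v (k - p) (x 0) := by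
          have h2 : it v ((k - p) + p) (x 0) = it v (k - p) (it v p (x 0)) := it_add v (k - p) p (x 0)
          rw [hper, Nat.sub_add_cancel (not_lt.1 hk)] at h2
          exact h2
        rw [h1]
        exact ih (k - p) (by omega)
  have hmu : trD v p (x 0) = m := by
    rw [← hc.mul]
    unfold trD
    refine Finset.prod_congr rfl fun i hi => ?_
    rw [hit i (Finset.mem_range.1 hi).le, ← pol_eval, Pool.Agent.H61.TT.wv_pol]
    rfl
  have hm0 : m ≠ 0 := by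
    intro h0
    rw [h0, norm_zero] at hm
    linarith
  refine ⟨?_, ?_, p, (1 + ‖m‖) / 2, by linarith, ?_⟩
  · have h1 : {y | ∃ i < p, (x i : OnePoint ℂ) = y} = (fun i => (x i : OnePoint ℂ)) '' Set.Iio p := by
      ext y
      simp
    rw [h1]
    exact ((Set.finite_Iio p).image _).isCompact
  · rintro _ ⟨i, hi, rfl⟩
    have h1 : Rf v (x i : OnePoint ℂ) = (x (i + 1) : OnePoint ℂ) := by
      rw [← hc.step i hi]
      exact rat_coe_of_ne (hc.ne i hi)
    rw [h1]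
    by_cases h2 : i + 1 < p
    · exact ⟨i + 1, h2, rfl⟩
    · have h3 : i + 1 = p := by omega
      exact ⟨0, hp, by rw [h3, hc.per]⟩
  · rintro _ ⟨i, hi, rfl⟩
    have hxi : x i = it v i (x 0) := (hit i hi.le).symm
    have hden2 : ∀ k, ev v.2 (it v k (x i)) ≠ 0 := by
      intro k
      rw [hxi, ← it_add]
      exact hall _
    have hperi : it v p (x i) = x i := by
      rw [hxi, ← it_add, Nat.add_comm, it_add, hper]
    have hD : trD v p (x i) = m := by
      have e1 : trD v (i + p) (x 0) = trD v p (it v i (x 0)) * trD v i (x 0) := trD_add v p i (x 0)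
      have e2 : trD v (p + i) (x 0) = trD v i (it v p (x 0)) * trD v p (x 0) := trD_add v i p (x 0)
      have e3 : trD v (i + (p - i)) (x 0) = trD v (p - i) (it v i (x 0)) * trD v i (x 0) :=
        trD_add v (p - i) i (x 0)
      have h0 : trD v i (x 0) ≠ 0 := by
        intro h0
        rw [h0, mul_zero, Nat.add_sub_cancel' hi.le, hmu] at e3
        exact hm0 e3
      rw [Nat.add_comm p i, e1, hper, hmu, mul_comm (trD v i (x 0))] at e2
      rw [hxi]
      exact mul_right_cancel₀ h0 e2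
    have hder : HasDerivAt (fun z => it v p z) m (x i) := by
      rw [← hD]
      exact tr_hasDerivAt v (x i) p fun j _ => hden2 j
    have hexp := exp_pt hder hperi (q := (1 + ‖m‖) / 2) (by positivity) (by linarith)
    have hfin : ∀ᶠ z : ℂ in 𝓝 (x i), (Rf v)^[p] (z : OnePoint ℂ) = ((it v p z : ℂ) : OnePoint ℂ) := by
      have hor : Orb v (fun j => it v j (x i)) p := by
        intro j hj
        exact ⟨hden2 j, rfl⟩
      have h1 := orb_near hor
      have h2 : Tendsto (fun z : ℂ => ((v, z) : E d × ℂ)) (𝓝 (x i)) (𝓝 (v, x i)) := by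
        have h3 : Continuous fun z : ℂ => ((v, z) : E d × ℂ) := by fun_prop
        exact h3.tendsto (x i)
      filter_upwards [h2.eventually h1] with z hz
      exact rat_it hz
    have hemb : 𝓝 ((x i : ℂ) : OnePoint ℂ) = map (fun z : ℂ => (z : OnePoint ℂ)) (𝓝 (x i)) :=
      OnePoint.nhds_coe_eq (x i)
    rw [hemb, eventually_map]
    filter_upwards [hexp, hfin] with z h1 h2
    have h3 : (Rf v)^[p] ((x i : ℂ) : OnePoint ℂ) = ((x i : ℂ) : OnePoint ℂ) := by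
      rw [rat_it fun j _ => hden2 j, hperi]
    rw [h2, h3]
    exact h1

theorem nland (hd : 2 ≤ d) (hcop : IsCoprime (pol v.1) (pol v.2))
    (hdeg : max (pol v.1).natDegree (pol v.2).natDegree = d) (hup : ¬ Up v) {p : ℕ} (hp : 0 < p)
    {x : ℕ → ℂ} {m : ℂ} (hc : Cyc (pol v.1) (pol v.2) p x m) (hm : 1 < ‖m‖) {c : OnePoint ℂ}
    (hcr : IsCrit (Rf v) c) (n : ℕ) : (Rf v)^[n] c ≠ (x 0 : OnePoint ℂ) := by
  intro hn
  obtain ⟨c1, hc1, hT⟩ := tg_of_exp hd hcop hdeg hcr (exp_cyc hp hc hm) (m := n) ⟨0, hp, hn.symm⟩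
  exact hup (up_summ hd hcop hdeg hc1 hT.1)

end Pool.Agent.H64.PC
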