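import Pool.Agent.H44.ND.UPN
import Pool.Agent.H44.RC.RCD

/-!
# THEOREM P (critical points outside the critical limit sets): definitions

`PCS f`: the closure of the forward orbits of the critical values. `RepC v x p`: `x` is a repelling periodic point with
orbit in the plane. `Back v x`: the preimages of `x`. `Off v c ρ o`: the orbit of `o` never visits `ball c ρ`.
`Dt v c ρ`: the standing assumptions in a chart: infinity is a FIXED point, `c` is a finite critical point in the Julia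
set, the orbits of the critical values do not visit `ball c ρ`. So all branches of the inverses of all iterates exist on
`ball c ρ`, are univalent and finite.
`Wan v c r`: a wandering set of positive area in `ball c r`.
`Vel v w x a`: `a` satisfies the equation of the velocities (direction `w`) on the preimages of `x`.
-/

set_option autoImplicit false

open Filter Topology Polynomial Metric Set MeasureTheory

namespace Pool.Agent.H64.PC

open Pool.Agent.H44.Fatou Pool.Agent.H32.BT Pool.Agent.H79.Eul Pool.Agent.H79.Par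
open Pool.Agent.H35.EX Pool.Agent.H44.RR Pool.Agent.H56.HR Pool.Agent.H44.RC

/-- the closure of the forward orbits of the critical values -/
def PCS (f : OnePoint ℂ → OnePoint ℂ) : Set (OnePoint ℂ) :=
  closure {y | ∃ c, IsCrit f c ∧ ∃ n : ℕ, f^[n + 1] c = y}

variable {d : ℕ}

/-- a repelling periodic point, its orbit is in the plane -/
structure RepC (v : E d) (x : ℂ) (p : ℕ) : Prop where
  pos : 0 < p
  fin : ∀ k, ev v.2 (it v k x) ≠ 0
  per : it v p x = x
  rep : 1 < ‖trD v p x‖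

/-- the preimages of `x` under all iterates -/
def Back (v : E d) (x : ℂ) : Set ℂ :=
  {z | ∃ m : ℕ, (Rf v)^[m] (z : OnePoint ℂ) = (x : OnePoint ℂ)}

/-- the orbit of `o` never visits `ball c ρ` -/
def Off (v : E d) (c : ℂ) (ρ : ℝ) (o : OnePoint ℂ) : Prop :=
  ∀ n : ℕ, ∀ z ∈ ball c ρ, (Rf v)^[n] o ≠ (z : OnePoint ℂ)

/-- the standing assumptions -/
structure Dt (v : E d) (c : ℂ) (ρ : ℝ) : Prop where
  hd : 2 ≤ d
  cop : IsCoprime (pol v.1) (pol v.2)
  deg : max (pol v.1).natDegree (pol v.2).natDegree = d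
  inf : Rf v OnePoint.infty = OnePoint.infty
  crit : wv v c = 0
  pos : 0 < ρ
  post : ∀ x, IsCrit (Rf v) x → ∀ n : ℕ, ∀ z ∈ ball c ρ, (Rf v)^[n + 1] x ≠ (z : OnePoint ℂ)
  jul : (c : OnePoint ℂ) ∈ JS (Rf v)

/-- the standing assumptions with two normalized points -/
structure Dz (v : E d) (c : ℂ) (ρ : ℝ) (o1 o2 : ℂ) : Prop extends Dt v c ρ where
  ne : o1 ≠ o2
  off1 : Off v c ρ (o1 : OnePoint ℂ)
  off2 : Off v c ρ (o2 : OnePoint ℂ)

/-- a target: a repelling periodic point on no critical orbit, not on the orbits of `o1`, `o2` -/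
structure Tg (v : E d) (o1 o2 : ℂ) (x : ℂ) (p : ℕ) : Prop extends RepC v x p where
  nocrit : ∀ y, IsCrit (Rf v) y → ∀ n : ℕ, (Rf v)^[n] y ≠ (x : OnePoint ℂ)
  no1 : ∀ n : ℕ, (Rf v)^[n] (o1 : OnePoint ℂ) ≠ (x : OnePoint ℂ)
  no2 : ∀ n : ℕ, (Rf v)^[n] (o2 : OnePoint ℂ) ≠ (x : OnePoint ℂ)

/-- a wandering set of positive area in `ball c r` -/
def Wan (v : E d) (c : ℂ) (r : ℝ) : Prop :=
  ∃ A : Set ℂ, MeasurableSet A ∧ A ⊆ ball c r ∧ 0 < volume A ∧
    ∀ n : ℕ, ∀ z ∈ A, ∀ z' ∈ A, (Rf v)^[n + 1] (z : OnePoint ℂ) ≠ (z' : OnePoint ℂ)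

/-- the equation of the velocities -/
def Vel (v w : E d) (x : ℂ) (a : ℂ → ℂ) : Prop :=
  ∀ z ∈ Back v x, a (it v 1 z) = wv v z / ev v.2 z ^ 2 * a z + xi v w z

/-- the conclusion of the core: unbounded velocities near `c` -/
def Unb (v : E d) (c x : ℂ) : Prop :=
  ∃ (w : E d) (a : ℂ → ℂ), Vel v w x a ∧
    ∀ M r : ℝ, 0 < r → ∃ z ∈ Back v x, ‖z - c‖ < r ∧ M < ‖a z‖

/-- the kernel normalized at `o1`, `o2`, infinity -/
noncomputable def Kr (o1 o2 z y : ℂ) : ℂ :=
  (z - o1) * (z - o2) / ((y - o1) * (y - o2) * (z - y))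

end Pool.Agent.H64.PC
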