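import Mathlib
import Pool.Agent.H57.CP.END
import Pool.Agent.H32.RB.Main

/-!
# Critical points outside the closure of the critical orbits (maps with an attracting cycle)

The work is in `H57/CP`, `H44/CP`, `H31/CP` (velocities of repelling cycles, sums over backward orbits), `H79/ES`,
`H44/ND`, `H44/RC`, `H47/RJ`, `H76/SU`.
-/

set_option autoImplicit false

namespace Pool.Agent.H64.PC.Stage1

open Polynomial Filter Topology MeasureTheory

/-- `f` is the rational map `P/Q` on the sphere. -/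
def IsMap (f : OnePoint ℂ → OnePoint ℂ) (P Q : Polynomial ℂ) : Prop :=
  Continuous f ∧
    ∀ z : ℂ, Q.eval z ≠ 0 → f (OnePoint.some z) = OnePoint.some (P.eval z / Q.eval z)

/-- `c` is a critical point of `f`. -/
def IsCritical (f : OnePoint ℂ → OnePoint ℂ) (c : OnePoint ℂ) : Prop :=
  ¬ ∃ U ∈ nhds c, Set.InjOn f U

/-- `c` is attracted by an attracting cycle of `f` (words of the frozen statement `S05373`). -/
def IsAttracted (f : OnePoint ℂ → OnePoint ℂ) (c : OnePoint ℂ) : Prop :=
  ∃ z : OnePoint ℂ, ∃ n : ℕ, 0 < n ∧ f^[n] z = z ∧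
    (∃ U ∈ nhds z, ∀ w ∈ U,
      Filter.Tendsto (fun k : ℕ => f^[n * k] w) Filter.atTop (nhds z)) ∧
    Filter.Tendsto (fun k : ℕ => f^[n * k] c) Filter.atTop (nhds z)

/-- `f` has an attracting cycle. -/
def HasAttractingCycle (f : OnePoint ℂ → OnePoint ℂ) : Prop := ∃ x, IsAttracted f x

/-- The number of the critical points which are attracted by attracting cycles. -/
noncomputable def attractedNumber (f : OnePoint ℂ → OnePoint ℂ) : ℕ :=
  {c : OnePoint ℂ | IsCritical f c ∧ IsAttracted f c}.ncard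

/-- The chordal distance of the Riemann sphere. -/
noncomputable def chordal : OnePoint ℂ → OnePoint ℂ → ℝ
  | OnePoint.some z, OnePoint.some w => ‖z - w‖ / (√(1 + ‖z‖ ^ 2) * √(1 + ‖w‖ ^ 2))
  | OnePoint.some z, OnePoint.infty => 1 / √(1 + ‖z‖ ^ 2)
  | OnePoint.infty, OnePoint.some w => 1 / √(1 + ‖w‖ ^ 2)
  | OnePoint.infty, OnePoint.infty => 0

/-- The Julia set of `f`: the points without a neighbourhood at whose points the iterates of `f` are
equicontinuous for the chordal distance. -/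
def julia (f : OnePoint ℂ → OnePoint ℂ) : Set (OnePoint ℂ) :=
  (interior {x | ∀ ε : ℝ, 0 < ε → ∀ᶠ y in nhds x, ∀ n : ℕ, chordal (f^[n] x) (f^[n] y) < ε})ᶜ

/-- The limit set of the orbit of `x`. -/
def limitSet (f : OnePoint ℂ → OnePoint ℂ) (x : OnePoint ℂ) : Set (OnePoint ℂ) :=
  {y | MapClusterPt y atTop fun n : ℕ => f^[n] x}

/-- The closure of the set of all `f^n(c)`, `n ≥ 1`, `c` a critical point. -/
def criticalOrbits (f : OnePoint ℂ → OnePoint ℂ) : Set (OnePoint ℂ) :=
  closure {y | ∃ c, IsCritical f c ∧ ∃ n : ℕ, 1 ≤ n ∧ f^[n] c = y}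

/-- Pairs of polynomials of degree at most `d`, given by their coefficients. -/
abbrev Pairs (d : ℕ) : Type := (Fin (d + 1) → ℂ) × (Fin (d + 1) → ℂ)

/-- The polynomial of degree at most `d` with coefficients `v`. -/
noncomputable def poly {d : ℕ} (v : Fin (d + 1) → ℂ) : Polynomial ℂ := ∑ i, C (v i) * X ^ (i : ℕ)

/-- `f` is the rational map of degree exactly `d` given by the pair `v` of coprime polynomials. -/
def IsRational {d : ℕ} (v : Pairs d) (f : OnePoint ℂ → OnePoint ℂ) : Prop :=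
  IsCoprime (poly v.1) (poly v.2) ∧ max (poly v.1).natDegree (poly v.2).natDegree = d ∧
    IsMap f (poly v.1) (poly v.2)

/-- The rational maps of degree exactly `d` with a property `T`. -/
def MapsWith (d : ℕ) (T : (OnePoint ℂ → OnePoint ℂ) → Prop) : Set (Pairs d) :=
  {v | ∃ f : OnePoint ℂ → OnePoint ℂ, IsRational v f ∧ T f}

theorem chord_eq (x y : OnePoint ℂ) : chordal x y = Pool.Agent.H35.EX.chord x y := by
  induction x using OnePoint.rec with
  | infty =>
    induction y using OnePoint.rec with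
    | infty => rfl
    | coe y => rfl
  | coe x =>
    induction y using OnePoint.rec with
    | infty => rfl
    | coe y => rfl

theorem julia_eq (f : OnePoint ℂ → OnePoint ℂ) : julia f = Pool.Agent.H44.RC.JS f := by
  unfold julia Pool.Agent.H44.RC.JS Pool.Agent.H56.HR.FS Pool.Agent.H56.HR.EqAt
  simp only [chord_eq]

theorem limit_eq (f : OnePoint ℂ → OnePoint ℂ) (x : OnePoint ℂ) :
    limitSet f x = Pool.Agent.H44.RC.Om f x := by
  ext y
  exact mapClusterPt_iff_frequently

theorem att_iff {f : OnePoint ℂ → OnePoint ℂ} {c : OnePoint ℂ} :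
    Pool.Agent.H32.BT.Att f c ↔ IsAttracted f c := by
  constructor
  · rintro ⟨z, n, ⟨h1, h2, h3⟩, h4⟩
    exact ⟨z, n, h1, h2, h3, h4⟩
  · rintro ⟨z, n, h1, h2, h3, h4⟩
    exact ⟨z, n, ⟨h1, h2, h3⟩, h4⟩

theorem number_eq {d : ℕ} (v : Pool.Agent.H79.Eul.E d) :
    attractedNumber (Pool.Agent.H79.Par.Rf v) = Pool.Agent.H79.ES.NA v := by
  unfold attractedNumber Pool.Agent.H79.ES.NA
  congr 1
  ext c
  exact and_congr Iff.rfl att_iff.symm

theorem rf_isMap {d : ℕ} (hd : 2 ≤ d) {v : Pairs d} (h1 : IsCoprime (poly v.1) (poly v.2))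
    (h2 : max (poly v.1).natDegree (poly v.2).natDegree = d) : IsRational v (Pool.Agent.H79.Par.Rf v) := by
  have h1' : IsCoprime (Pool.Agent.H79.Eul.pol v.1) (Pool.Agent.H79.Eul.pol v.2) := h1
  refine ⟨h1, h2, Pool.Agent.H44.Fatou.rat_continuous h1', fun z hz => ?_⟩
  exact Pool.Agent.H44.Fatou.rat_coe_of_ne hz

theorem rf_unique {d : ℕ} (hd : 2 ≤ d) {v : Pairs d} {f : OnePoint ℂ → OnePoint ℂ} (h : IsRational v f) :
    IsCoprime (Pool.Agent.H79.Eul.pol v.1) (Pool.Agent.H79.Eul.pol v.2) ∧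
      max (Pool.Agent.H79.Eul.pol v.1).natDegree (Pool.Agent.H79.Eul.pol v.2).natDegree = d ∧
      f = Pool.Agent.H79.Par.Rf v := by
  obtain ⟨h1, h2, hf⟩ := h
  have h1' : IsCoprime (Pool.Agent.H79.Eul.pol v.1) (Pool.Agent.H79.Eul.pol v.2) := h1
  have h2' : max (Pool.Agent.H79.Eul.pol v.1).natDegree
      (Pool.Agent.H79.Eul.pol v.2).natDegree = d := h2
  have hB0 : Pool.Agent.H79.Eul.pol v.2 ≠ 0 := Pool.Agent.H32.BT.den_ne_zero h1' (by omega)
  exact ⟨h1', h2', Pool.Agent.H32.RB.ext_eq h1' hB0 hf⟩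

/-- Let `d ≥ 2`. (1) Let `f` be a rational map of degree `d` with an attracting cycle and let `c` be a
critical point in the Julia set which is not in the closure of the forward orbits of the critical
values. Then arbitrarily near `f` there are rational maps of degree `d` with more critical points
attracted by attracting cycles. (2) The maps `f` of degree `d` with an attracting cycle which do not
have the following two properties form a nowhere dense set: every critical point in the Julia set is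
in the limit set of a recurrent critical point in the Julia set; `f` is hyperbolic or has a recurrent
critical point in the Julia set. -/
theorem result (d : ℕ) (hd : 2 ≤ d) :
    (∀ (v : Pairs d) (f : OnePoint ℂ → OnePoint ℂ), IsRational v f → HasAttractingCycle f →
      ∀ c, IsCritical f c → c ∈ julia f → c ∉ criticalOrbits f →
        ∀ ε : ℝ, 0 < ε → ∃ w ∈ Metric.ball v ε, ∃ g, IsRational w g ∧
          attractedNumber f < attractedNumber g) ∧
    IsNowhereDense (MapsWith d fun f => HasAttractingCycle f ∧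
      ¬ ((∀ c, IsCritical f c → c ∈ julia f →
          ∃ r, IsCritical f r ∧ r ∈ julia f ∧ r ∈ limitSet f r ∧ c ∈ limitSet f r) ∧
        ((∀ c, IsCritical f c → IsAttracted f c) ∨
          ∃ r, IsCritical f r ∧ r ∈ julia f ∧ r ∈ limitSet f r))) := by
  refine ⟨?_, ?_⟩
  · rintro v f hf ⟨x, hx⟩ c hc hJ hP ε hε
    obtain ⟨h1, h2, rfl⟩ := rf_unique hd hf
    have hup := Pool.Agent.H57.CP.P1 hd h1 h2 ⟨x, att_iff.2 hx⟩ hc (by rw [← julia_eq]; exact hJ) hP
    obtain ⟨w, hw, h3, h4, h5⟩ := hup ε hε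
    refine ⟨w, hw, _, rf_isMap hd h3 h4, ?_⟩
    rw [number_eq, number_eq]
    omega
  · refine (Pool.Agent.H57.CP.p_main hd).mono ?_
    rintro v ⟨f, hf, ⟨x, hx⟩, hn⟩
    obtain ⟨h1, h2, rfl⟩ := rf_unique hd hf
    obtain ⟨z, n, hz, -⟩ := att_iff.2 hx
    refine ⟨h1, h2, ⟨z, n, hz⟩, fun hC => hn ⟨fun c hc hJ => ?_, ?_⟩⟩
    · rw [julia_eq] at hJ
      obtain ⟨r, e1, e2, e3, e4⟩ := hC.1 c hc hJ
      refine ⟨r, e1, ?_, ?_, ?_⟩
      · rw [julia_eq]; exact e2
      · rw [limit_eq]; exact e3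
      · rw [limit_eq]; exact e4
    · rcases hC.2 with e1 | ⟨r, e1, e2, e3⟩
      · exact Or.inl fun c hc => att_iff.1 (e1 c hc)
      · refine Or.inr ⟨r, e1, ?_, ?_⟩
        · rw [julia_eq]; exact e2
        · rw [limit_eq]; exact e3

end Pool.Agent.H64.PC.Stage1
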