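import Pool.Agent.H64.PC.VB2

/-!
# Module VB3: the holomorphic selection of preimages

PROOF. `ift2`: the implicit function theorem in `ℂ × ℂ` (as `ift` in H44/NP/IFT). `kb_loc`: `ift2` at the points of `KB` (`crit_of_deriv`: the root is simple). `kb_sel`: `sel` (H44/CP/MCV) and the local uniqueness.
-/

set_option autoImplicit false

open Filter Topology Polynomial Metric Set

namespace Pool.Agent.H64.PC

open Pool.Agent.H44.Fatou Pool.Agent.H32.BT Pool.Agent.H79.Eul Pool.Agent.H79.Par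

variable {d : ℕ}

private theorem ift_inv2 (L : ℂ →L[ℂ] ℂ) (h : L 1 ≠ 0) : L.IsInvertible := by
  refine ⟨ContinuousLinearEquiv.unitsEquivAut ℂ (Units.mk0 (L 1) h), ?_⟩
  ext
  simp

theorem ift2 {h : ℂ × ℂ → ℂ} {q : ℂ × ℂ} (hh : AnalyticAt ℂ h q) (h0 : h q = 0)
    (h1 : fderiv ℂ h q (0, 1) ≠ 0) :
    ∃ (r : ℝ) (ζ : ℂ → ℂ), 0 < r ∧ AnalyticOnNhd ℂ ζ (ball q.1 r) ∧ ζ q.1 = q.2 ∧
      (∀ v ∈ ball q.1 r, h (v, ζ v) = 0) ∧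
      ∀ v ∈ ball q.1 r, ∀ z ∈ ball q.2 r, h (v, z) = 0 → z = ζ v := by
  have cdf : ContDiffAt ℂ ⊤ h q := hh.contDiffAt
  have hL : (fderiv ℂ h q ∘L .inr ℂ ℂ ℂ) 1 ≠ 0 := by
    show (fderiv ℂ h q) ((ContinuousLinearMap.inr ℂ ℂ ℂ) 1) ≠ 0
    rw [ContinuousLinearMap.inr_apply]
    exact h1
  have hinv : (fderiv ℂ h q ∘L .inr ℂ ℂ ℂ).IsInvertible := ift_inv2 _ hL
  have hn : (⊤ : WithTop ℕ∞) ≠ 0 := by simp
  obtain ⟨ζ, hζ⟩ : ∃ ζ : ℂ → ℂ, ζ = cdf.implicitFunction hn hinv := ⟨_, rfl⟩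
  have z0 : ζ q.1 = q.2 := by
    rw [hζ]
    exact cdf.implicitFunction_apply_self hn hinv
  have z1 : ∀ᶠ t in 𝓝 q.1, h (t, ζ t) = 0 := by
    rw [hζ, ← h0]
    exact cdf.eventually_apply_implicitFunction hn hinv
  have z2 : ∀ᶠ v in 𝓝 q, h v = 0 ↔ ζ v.1 = v.2 := by
    rw [hζ, ← h0]
    exact cdf.eventually_apply_eq_iff_implicitFunction hn hinv
  have z3 : ContDiffAt ℂ ⊤ ζ q.1 := by
    rw [hζ]
    exact cdf.contDiffAt_implicitFunction hn hinv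
  have z4 : ∀ᶠ t in 𝓝 q.1, AnalyticAt ℂ ζ t := z3.analyticAt.eventually_analyticAt
  obtain ⟨r1, hr1, hr1'⟩ := Metric.eventually_nhds_iff_ball.1 (z1.and z4)
  obtain ⟨r2, hr2, hr2'⟩ := Metric.eventually_nhds_iff_ball.1 z2
  refine ⟨min r1 r2, ζ, lt_min hr1 hr2, fun v hv => ?_, z0, fun v hv => ?_, fun v hv z hz hvz => ?_⟩
  · exact (hr1' v (ball_subset_ball (min_le_left _ _) hv)).2
  · exact (hr1' v (ball_subset_ball (min_le_left _ _) hv)).1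
  · have hq : ((v, z) : ℂ × ℂ) ∈ ball q r2 := by
      rw [Metric.mem_ball, Prod.dist_eq, max_lt_iff]
      exact ⟨lt_of_lt_of_le (Metric.mem_ball.1 hv) (min_le_right _ _),
        lt_of_lt_of_le (Metric.mem_ball.1 hz) (min_le_right _ _)⟩
    exact ((hr2' _ hq).1 hvz).symm

variable {v0 w : E d} {r : ℝ} {q X : ℂ → ℂ}

theorem kb_loc (h : BD v0 w r q X) (m : ℕ) {p : ℂ × ℂ} (hp : p ∈ KB v0 w r q X m)
    (hpr : p.1 ∈ ball (0 : ℂ) r) :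
    ∃ (δ : ℝ) (ζ : ℂ → ℂ), 0 < δ ∧ DifferentiableOn ℂ ζ (ball p.1 δ) ∧ ζ p.1 = p.2 ∧
      (∀ t ∈ ball p.1 δ, (t, ζ t) ∈ KB v0 w r q X m) ∧
      ∀ t ∈ ball p.1 δ, ∀ z ∈ ball p.2 δ, (t, z) ∈ KB v0 w r q X m → z = ζ t := by
  obtain ⟨t1, u1⟩ := p
  obtain ⟨ht, hF⟩ := hp
  have ht' : ‖t1‖ < r := mem_ball_zero_iff.1 hpr
  have hA := h.an m (p := (t1, u1)) ht
  have hd1 : fderiv ℂ (fun p : ℂ × ℂ => Fb (v0 + p.1 • w) m (q p.1) (X p.1) p.2) (t1, u1) (0, 1) ≠ 0 := by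
    intro h0
    have hc : HasDerivAt (fun u : ℂ => ((t1, u) : ℂ × ℂ)) ((0 : ℂ), (1 : ℂ)) u1 :=
      (hasDerivAt_const u1 t1).prodMk (hasDerivAt_id u1)
    have h2 := hA.differentiableAt.hasFDerivAt.comp_hasDerivAt u1 hc
    rw [h0] at h2
    have h3 : deriv (Fb (v0 + t1 • w) m (q t1) (X t1)) u1 = 0 := h2.deriv
    obtain ⟨c, hc, n, hn⟩ := crit_of_deriv (h.cop t1 ht) (h.deg t1 ht) hF h3
    exact h.nc t1 ht c hc n hn
  obtain ⟨δ, ζ, hδ, hζ, hζ0, h1, h2⟩ := ift2 hA hF hd1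
  obtain ⟨δ', hδ'⟩ : ∃ δ', δ' = min δ (r - ‖t1‖) := ⟨_, rfl⟩
  have hδ'0 : 0 < δ' := by rw [hδ']; exact lt_min hδ (by linarith)
  have hδ1 : δ' ≤ δ := by rw [hδ']; exact min_le_left _ _
  have hδ2 : ∀ t ∈ ball t1 δ', ‖t‖ ≤ r := by
    intro t ht2
    rw [mem_ball, dist_eq_norm] at ht2
    have h3 : ‖t‖ ≤ ‖t1‖ + ‖t - t1‖ := by
      calc ‖t‖ = ‖t1 + (t - t1)‖ := by rw [add_sub_cancel]
        _ ≤ _ := norm_add_le _ _
    have h4 : δ' ≤ r - ‖t1‖ := by rw [hδ']; exact min_le_right _ _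
    linarith
  refine ⟨δ', ζ, hδ'0, fun t ht2 => ?_, hζ0, fun t ht2 => ?_, fun t ht2 z hz hK => ?_⟩
  · exact (hζ t (ball_subset_ball hδ1 ht2)).differentiableAt.differentiableWithinAt
  · exact ⟨hδ2 t ht2, h1 t (ball_subset_ball hδ1 ht2)⟩
  · exact h2 t (ball_subset_ball hδ1 ht2) z (ball_subset_ball hδ1 hz) hK.2

theorem kb_sel (h : BD v0 w r q X) (m : ℕ) {u0 : ℂ} (hu : ((0 : ℂ), u0) ∈ KB v0 w r q X m) :
    ∃ F : ℂ → ℂ, DifferentiableOn ℂ F (ball 0 r) ∧ F 0 = u0 ∧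
      ∀ t ∈ ball (0 : ℂ) r, (t, F t) ∈ KB v0 w r q X m := by
  obtain ⟨F, hF, hF0, hFK⟩ := Pool.Agent.H44.CP.sel (kb_cpt h m) h.hr (fun p hp hpr => by
    obtain ⟨δ, ζ, h1, h2, h3⟩ := kb_loc h m hp hpr
    exact ⟨δ, ζ, h1, h2.continuousOn, h3⟩) hu
  refine ⟨F, fun t ht => ?_, hF0, hFK⟩
  obtain ⟨δ, ζ, hδ, hζ, hζ0, -, h2⟩ := kb_loc h m (hFK t ht) ht
  have hc : ContinuousAt F t := hF.continuousAt (isOpen_ball.mem_nhds ht)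
  have he : F =ᶠ[𝓝 t] ζ := by
    filter_upwards [ball_mem_nhds t hδ, hc (ball_mem_nhds _ hδ), isOpen_ball.mem_nhds ht] with s h3 h4 h5
    exact h2 s h3 (F s) h4 (hFK s h5)
  have h3 : DifferentiableAt ℂ ζ t := hζ.differentiableAt (ball_mem_nhds _ hδ)
  exact (he.differentiableAt_iff.2 h3).differentiableWithinAt

/-- the preimages move holomorphically over the disc -/
theorem pre_sel (h : BD v0 w r q X) {m : ℕ} {z0 : ℂ}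
    (hz : (Rf v0)^[m] (z0 : OnePoint ℂ) = (X 0 : OnePoint ℂ)) :
    ∃ F : ℂ → ℂ, DifferentiableOn ℂ F (ball 0 r) ∧ F 0 = (z0 - q 0)⁻¹ ∧ F 0 ≠ 0 ∧
      psi (q 0) (F 0) = (z0 : OnePoint ℂ) ∧
      ∀ t ∈ ball (0 : ℂ) r, (Rf (v0 + t • w))^[m] (psi (q t) (F t)) = (X t : OnePoint ℂ) := by
  have h00 : ‖(0 : ℂ)‖ ≤ r := by rw [norm_zero]; exact h.hr.le
  have e0 : v0 + (0 : ℂ) • w = v0 := by rw [zero_smul, add_zero]
  have hcop := h.cop 0 h00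
  have hdeg := h.deg 0 h00
  have hne : z0 ≠ q 0 := by
    intro h1
    have h2 := h.nq 0 h00 m
    rw [e0, ← h1] at h2
    exact h2 hz
  have hsub : z0 - q 0 ≠ 0 := sub_ne_zero.2 hne
  have hpsi : psi (q 0) (z0 - q 0)⁻¹ = (z0 : OnePoint ℂ) := by
    rw [psi_s (inv_ne_zero hsub), inv_inv, sub_add_cancel]
    unfold pt
    rw [if_neg one_ne_zero, div_one]
  have hmem : ((0 : ℂ), (z0 - q 0)⁻¹) ∈ KB v0 w r q X m := by
    refine ⟨h00, ?_⟩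
    refine (fb_iff hcop hdeg m (q 0) (X 0) _).1 ?_
    rw [hpsi, e0]
    exact hz
  obtain ⟨F, hF, hF0, hFK⟩ := kb_sel h m hmem
  refine ⟨F, hF, hF0, ?_, ?_, fun t ht => ?_⟩
  · rw [hF0]
    exact inv_ne_zero hsub
  · rw [hF0]
    exact hpsi
  · have ht' : ‖t‖ ≤ r := (mem_ball_zero_iff.1 ht).le
    exact (fb_iff (h.cop t ht') (h.deg t ht') m (q t) (X t) (F t)).2 (hFK t ht).2

end Pool.Agent.H64.PC
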